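import Mathlib

/-!
Finite combinatorial input for a Davie-type construction of a Banach space without the
approximation property: explicit small-bias families of `±1`-valued characters, built from
multiplication in the fields with `2 ^ (2 ^ k)` elements.
-/

set_option autoImplicit false

namespace Pool.Agent.Helper38.Davie

open Finset Polynomial

/-- sign character of `ZMod 2` -/
noncomputable def sg (a : ZMod 2) : ℝ := if a = 0 then 1 else -1

theorem sg_zero : sg 0 = 1 := by simp [sg]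

theorem sg_one : sg 1 = -1 := by simp [sg]

theorem zmod2_cases (a : ZMod 2) : a = 0 ∨ a = 1 := by
  fin_cases a
  · exact Or.inl rfl
  · exact Or.inr rfl

theorem zmod2_add_self (a : ZMod 2) : a + a = 0 := by
  rcases zmod2_cases a with rfl | rfl
  · rfl
  · rfl

theorem sg_add (a b : ZMod 2) : sg (a + b) = sg a * sg b := by
  rcases zmod2_cases a with rfl | rfl
  · simp [sg_zero]
  · rcases zmod2_cases b with rfl | rfl
    · simp [sg_zero]
    · have : (1 : ZMod 2) + 1 = 0 := rfl
      rw [this, sg_zero, sg_one]; norm_num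

theorem sg_mul_self (a : ZMod 2) : sg a * sg a = 1 := by
  rw [← sg_add, zmod2_add_self, sg_zero]

theorem abs_sg (a : ZMod 2) : |sg a| = 1 := by
  rcases zmod2_cases a with rfl | rfl
  · simp [sg_zero]
  · simp [sg_one]

theorem sg_eq (a : ZMod 2) (h : a ≠ 0) : sg a = -1 := by
  rcases zmod2_cases a with rfl | rfl
  · exact absurd rfl h
  · exact sg_one

theorem sum_sg_hom {V : Type*} [AddCommGroup V] [Fintype V] (φ : V →+ ZMod 2) (v₀ : V)
    (h : φ v₀ ≠ 0) : ∑ v, sg (φ v) = 0 := by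
  have h1 : ∑ v, sg (φ v) = ∑ v, sg (φ (v + v₀)) :=
    (Equiv.sum_comp (Equiv.addRight v₀) (fun v => sg (φ v))).symm
  have h2 : ∑ v, sg (φ (v + v₀)) = -∑ v, sg (φ v) := by
    rw [← Finset.sum_neg_distrib]
    refine Finset.sum_congr rfl (fun v _ => ?_)
    rw [map_add, sg_add, sg_eq _ h]; ring
  linarith

section field

variable {F : Type*} [Field F] [Fintype F]

theorem sum_y (f : F →+ ZMod 2) (hf : f ≠ 0) [DecidableEq F] (a : F) :
    ∑ y : F, sg (f (a * y)) = if a = 0 then (Fintype.card F : ℝ) else 0 := by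
  split_ifs with ha
  · subst ha
    simp [sg_zero]
  · obtain ⟨z, hz⟩ : ∃ z, f z ≠ 0 := by
      by_contra hcon
      push Not at hcon
      exact hf (AddMonoidHom.ext hcon)
    refine sum_sg_hom (f.comp (AddMonoidHom.mulLeft a)) (a⁻¹ * z) ?_
    show f (a * (a⁻¹ * z)) ≠ 0
    rw [mul_inv_cancel_left₀ ha]
    exact hz

theorem abs_sum_poly (f : F →+ ZMod 2) (hf : f ≠ 0) (P : F[X]) (hP : P ≠ 0) (n : ℕ)
    (hn : P.natDegree ≤ n) :
    |∑ j : F × F, sg (f (P.eval j.1 * j.2))| ≤ n * Fintype.card F := by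
  classical
  rw [Fintype.sum_prod_type]
  have h1 : ∀ x : F, ∑ y : F, sg (f (P.eval x * y)) =
      if P.eval x = 0 then (Fintype.card F : ℝ) else 0 := fun x => sum_y f hf _
  simp only [h1]
  rw [← Finset.sum_filter, Finset.sum_const, nsmul_eq_mul]
  have h2 : (Finset.univ.filter (fun x : F => P.eval x = 0)).card ≤ n := by
    have h3 : (Finset.univ.filter (fun x : F => P.eval x = 0)) ⊆ P.roots.toFinset := by
      intro x hx
      rw [Finset.mem_filter] at hx
      rw [Multiset.mem_toFinset, mem_roots hP]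
      exact hx.2
    calc _ ≤ P.roots.toFinset.card := Finset.card_le_card h3
      _ ≤ Multiset.card P.roots := Multiset.toFinset_card_le _
      _ ≤ P.natDegree := card_roots' P
      _ ≤ n := hn
  rw [abs_of_nonneg (by positivity)]
  have h4 : ((Finset.univ.filter (fun x : F => P.eval x = 0)).card : ℝ) ≤ n := by
    exact_mod_cast h2
  exact mul_le_mul_of_nonneg_right h4 (by positivity)

end field

/-- polynomial with given coefficients -/
noncomputable def pol {F : Type*} [Field F] (n : ℕ) (c : Fin n → F) : F[X] :=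
  ∑ i : Fin n, C (c i) * X ^ (i : ℕ)

theorem pol_coeff {F : Type*} [Field F] (n : ℕ) (c : Fin n → F) (m : ℕ) :
    (pol n c).coeff m = if h : m < n then c ⟨m, h⟩ else 0 := by
  unfold pol
  rw [finsetSum_coeff]
  simp only [coeff_C_mul, coeff_X_pow]
  split_ifs with h
  · rw [Finset.sum_eq_single ⟨m, h⟩]
    · simp
    · intro b _ hb
      rw [if_neg, mul_zero]
      intro hm
      exact hb (Fin.ext hm.symm)
    · intro hb
      exact absurd (Finset.mem_univ _) hb
  · refine Finset.sum_eq_zero (fun b _ => ?_)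
    rw [if_neg, mul_zero]
    intro hm
    exact h (hm ▸ b.2)

theorem pol_natDegree {F : Type*} [Field F] (n : ℕ) (c : Fin n → F) :
    (pol n c).natDegree ≤ n := by
  rw [natDegree_le_iff_coeff_eq_zero]
  intro m hm
  rw [pol_coeff, dif_neg (by omega)]

theorem pol_ne_zero {F : Type*} [Field F] (n : ℕ) (c : Fin n → F) (h : c ≠ 0) :
    pol n c ≠ 0 := by
  intro h0
  apply h
  funext i
  have := pol_coeff n c i
  rw [h0, coeff_zero, dif_pos i.2] at this
  exact this.symm

theorem pol_sub {F : Type*} [Field F] (n : ℕ) (c c' : Fin n → F) :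
    pol n c - pol n c' = pol n (c - c') := by
  unfold pol
  rw [← Finset.sum_sub_distrib]
  refine Finset.sum_congr rfl (fun i _ => ?_)
  simp [sub_mul]

theorem pol_add {F : Type*} [Field F] (n : ℕ) (c c' : Fin n → F) :
    pol n c + pol n c' = pol n (c + c') := by
  unfold pol
  rw [← Finset.sum_add_distrib]
  refine Finset.sum_congr rfl (fun i _ => ?_)
  simp [add_mul]

theorem pol_eval {F : Type*} [Field F] (n : ℕ) (c : Fin n → F) (x : F) :
    (pol n c).eval x = ∑ i : Fin n, c i * x ^ (i : ℕ) := by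
  unfold pol
  rw [eval_finsetSum]
  simp

/-- the fields of the construction, of cardinality `2 ^ (2 ^ k)` -/
abbrev Fd (k : ℕ) : Type := GaloisField 2 (2 ^ k)

noncomputable instance (k : ℕ) : Fintype (Fd k) := Fintype.ofFinite _

theorem card_Fd (k : ℕ) : Fintype.card (Fd k) = 2 ^ (2 ^ k) := by
  rw [← Nat.card_eq_fintype_card]
  exact GaloisField.card 2 (2 ^ k) (by positivity)

theorem finrank_Fd (k : ℕ) : Module.finrank (ZMod 2) (Fd k) = 2 ^ k :=
  GaloisField.finrank 2 (by positivity)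

theorem exists_fk (k : ℕ) : ∃ f : Fd k →ₗ[ZMod 2] ZMod 2, f ≠ 0 := by
  by_contra hcon
  push Not at hcon
  have h1 : ∀ φ : Module.Dual (ZMod 2) (Fd k), φ (1 : Fd k) = 0 := by
    intro φ
    rw [hcon φ]; rfl
  have h2 := (Module.forall_dual_apply_eq_zero_iff (ZMod 2) (1 : Fd k)).1 h1
  exact one_ne_zero h2

/-- a nonzero linear functional on the field -/
noncomputable def fk (k : ℕ) : Fd k →ₗ[ZMod 2] ZMod 2 := (exists_fk k).choose

theorem fk_ne (k : ℕ) : fk k ≠ 0 := (exists_fk k).choose_spec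

theorem fk_ne' (k : ℕ) : (fk k).toAddMonoidHom ≠ 0 := by
  intro h
  apply fk_ne k
  ext x
  exact DFunLike.congr_fun h x

/-- points of level `k` -/
abbrev Gk (k : ℕ) : Type := Fin 8 → Fd k

/-- indices of level `k` -/
abbrev Jk (k : ℕ) : Type := Fd (k + 1) × Fd (k + 1)

theorem card_Gk (k : ℕ) : Fintype.card (Gk k) = 2 ^ (2 ^ k * 8) := by
  rw [Fintype.card_fun, card_Fd, Fintype.card_fin, ← pow_mul]

theorem card_Jk (k : ℕ) : Fintype.card (Jk k) = 2 ^ (2 ^ k * 4) := by
  rw [Fintype.card_prod, card_Fd, ← pow_add]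
  congr 1
  rw [pow_succ]; ring

theorem exists_theta (k : ℕ) : Nonempty (Gk k ≃ₗ[ZMod 2] (Fin 4 → Fd (k + 1))) := by
  refine ⟨LinearEquiv.ofFinrankEq _ _ ?_⟩
  rw [Module.finrank_pi_fintype, Module.finrank_pi_fintype]
  simp only [finrank_Fd, Finset.sum_const, Finset.card_univ, Fintype.card_fin, smul_eq_mul]
  rw [pow_succ]; ring

/-- identification of the points of level `k` with vectors over the larger field -/
noncomputable def theta (k : ℕ) : Gk k ≃ₗ[ZMod 2] (Fin 4 → Fd (k + 1)) :=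
  (exists_theta k).some

/-- the functional `g ↦ f(P_g(x) y)` -/
noncomputable def LA (k : ℕ) (j : Jk k) : Module.Dual (ZMod 2) (Gk (k + 1)) :=
  ∑ i : Fin 8, (fk (k + 1)).comp
    ((LinearMap.mulLeft (ZMod 2) (j.1 ^ (i : ℕ) * j.2)).comp (LinearMap.proj i))

theorem LA_apply (k : ℕ) (j : Jk k) (g : Gk (k + 1)) :
    LA k j g = fk (k + 1) ((pol 8 g).eval j.1 * j.2) := by
  unfold LA
  rw [LinearMap.sum_apply, pol_eval, Finset.sum_mul, map_sum]
  refine Finset.sum_congr rfl (fun i _ => ?_)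
  simp only [LinearMap.comp_apply, LinearMap.mulLeft_apply, LinearMap.proj_apply]
  congr 1
  ring

/-- the functional `h ↦ f(Q_{θ h}(x) y)` -/
noncomputable def LB (k : ℕ) (j : Jk k) : Module.Dual (ZMod 2) (Gk k) :=
  (∑ i : Fin 4, (fk (k + 1)).comp
    ((LinearMap.mulLeft (ZMod 2) (j.1 ^ (i : ℕ) * j.2)).comp (LinearMap.proj i))).comp
      (theta k).toLinearMap

theorem LB_apply (k : ℕ) (j : Jk k) (h : Gk k) :
    LB k j h = fk (k + 1) ((pol 4 (theta k h)).eval j.1 * j.2) := by
  unfold LB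
  rw [LinearMap.comp_apply, LinearMap.sum_apply, pol_eval, Finset.sum_mul, map_sum]
  refine Finset.sum_congr rfl (fun i _ => ?_)
  simp only [LinearMap.comp_apply, LinearMap.mulLeft_apply, LinearMap.proj_apply,
    LinearEquiv.coe_coe]
  congr 1
  ring

theorem card_dual (k : ℕ) : Nat.card (Module.Dual (ZMod 2) (Gk k)) = 2 ^ (2 ^ k * 8) := by
  have e : Nonempty (Module.Dual (ZMod 2) (Gk k) ≃ₗ[ZMod 2] Gk k) :=
    ⟨LinearEquiv.ofFinrankEq _ _ Subspace.dual_finrank_eq⟩
  rw [Nat.card_congr e.some.toEquiv, Nat.card_eq_fintype_card, card_Gk]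

theorem exists_shift (k : ℕ) : ∃ c : Module.Dual (ZMod 2) (Gk (k + 1)),
    ∀ (i : Jk k) (j : Jk (k + 1)), LA k i + (LB (k + 1) j + c) ≠ 0 := by
  classical
  have hfin : Finite (Module.Dual (ZMod 2) (Gk (k + 1))) := by
    apply Nat.finite_of_card_ne_zero
    rw [card_dual]; positivity
  by_contra hcon
  push Not at hcon
  have hsurj : Function.Surjective
      (fun p : Jk k × Jk (k + 1) => -(LA k p.1 + LB (k + 1) p.2)) := by
    intro c
    obtain ⟨i, j, hij⟩ := hcon c
    refine ⟨(i, j), ?_⟩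
    show -(LA k i + LB (k + 1) j) = c
    have : LA k i + LB (k + 1) j + c = 0 := by rw [add_assoc]; exact hij
    exact (eq_neg_of_add_eq_zero_right this).symm
  have hle := Nat.card_le_card_of_surjective _ hsurj
  rw [card_dual, Nat.card_eq_fintype_card, Fintype.card_prod, card_Jk, card_Jk, ← pow_add] at hle
  have h2 := (Nat.pow_le_pow_iff_right (by norm_num : 1 < 2)).1 hle
  have h3 : 2 ^ (k + 1) = 2 * 2 ^ k := by rw [pow_succ]; ring
  have h4 : 0 < 2 ^ k := by positivity
  omega

/-- the shift functionals -/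
noncomputable def cS : (k : ℕ) → Module.Dual (ZMod 2) (Gk k)
  | 0 => 0
  | (k + 1) => (exists_shift k).choose

theorem cS_spec (k : ℕ) (i : Jk k) (j : Jk (k + 1)) :
    LA k i + (LB (k + 1) j + cS (k + 1)) ≠ 0 :=
  (exists_shift k).choose_spec i j

/-- the `A` values -/
noncomputable def Av (k : ℕ) (j : Jk k) (g : Gk (k + 1)) : ℝ :=
  sg (fk (k + 1) (j.1 ^ 8 * j.2) + LA k j g)

/-- the `B` values -/
noncomputable def Bv (k : ℕ) (j : Jk k) (h : Gk k) : ℝ :=
  sg (LB k j h + cS k h)

theorem Av_sq (k : ℕ) (j : Jk k) (g : Gk (k + 1)) : Av k j g * Av k j g = 1 := sg_mul_self _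

theorem Bv_sq (k : ℕ) (j : Jk k) (h : Gk k) : Bv k j h * Bv k j h = 1 := sg_mul_self _

/-- orthogonality of the two families on the common level -/
theorem orth (k : ℕ) (i : Jk k) (j : Jk (k + 1)) :
    ∑ g : Gk (k + 1), Av k i g * Bv (k + 1) j g = 0 := by
  have hne := cS_spec k i j
  obtain ⟨g₀, hg₀⟩ : ∃ g, (LA k i + (LB (k + 1) j + cS (k + 1))) g ≠ 0 := by
    by_contra hcon
    push Not at hcon
    exact hne (LinearMap.ext hcon)
  have h1 := sum_sg_hom (LA k i + (LB (k + 1) j + cS (k + 1))).toAddMonoidHom g₀ hg₀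
  have h2 : ∀ g, Av k i g * Bv (k + 1) j g = sg (fk (k + 1) (i.1 ^ 8 * i.2)) *
      sg ((LA k i + (LB (k + 1) j + cS (k + 1))).toAddMonoidHom g) := by
    intro g
    unfold Av Bv
    rw [← sg_add, ← sg_add]
    congr 1
    simp only [LinearMap.toAddMonoidHom_coe, LinearMap.add_apply]
    ring
  simp only [h2]
  rw [← Finset.mul_sum, h1, mul_zero]

theorem real_card_pos (k : ℕ) : (0 : ℝ) < Fintype.card (Fd k) := by
  rw [card_Fd]; positivity

/-- the small quantity -/
noncomputable def ep (k : ℕ) : ℝ := 8 / Fintype.card (Fd (k + 1))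

theorem ep_mul (k : ℕ) : ep k * Fintype.card (Jk k) = 8 * Fintype.card (Fd (k + 1)) := by
  unfold ep
  rw [Fintype.card_prod, Nat.cast_mul]
  have := real_card_pos (k + 1)
  field_simp

theorem cross (k : ℕ) (g : Gk (k + 1)) (h : Gk k) :
    |∑ j : Jk k, Av k j g * Bv k j h| ≤ ep k * Fintype.card (Jk k) := by
  classical
  rw [ep_mul]
  have h1 : ∀ j : Jk k, Av k j g * Bv k j h = sg (cS k h) *
      sg ((fk (k + 1)).toAddMonoidHom ((X ^ 8 + (pol 8 g + pol 4 (theta k h)) : (Fd (k+1))[X]).eval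
        j.1 * j.2)) := by
    intro j
    unfold Av Bv
    rw [← sg_add, ← sg_add, LA_apply, LB_apply]
    congr 1
    simp only [LinearMap.toAddMonoidHom_coe, eval_add, eval_pow, eval_X, add_mul, map_add]
    ring
  simp only [h1]
  rw [← Finset.mul_sum, abs_mul, abs_sg, one_mul]
  have hc : ∀ m, 8 ≤ m → (pol 8 g + pol 4 (theta k h)).coeff m = 0 := by
    intro m hm
    rw [coeff_add, pol_coeff, pol_coeff, dif_neg (by omega), dif_neg (by omega), add_zero]
  refine (abs_sum_poly (fk (k + 1)).toAddMonoidHom (fk_ne' _) _ ?_ 8 ?_).trans (le_of_eq ?_)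
  · intro h0
    have := congrArg (fun P : (Fd (k+1))[X] => P.coeff 8) h0
    simp only [coeff_zero] at this
    rw [coeff_add, hc 8 le_rfl, coeff_X_pow, if_pos rfl, add_zero] at this
    exact one_ne_zero this
  · rw [natDegree_le_iff_coeff_eq_zero]
    intro m hm
    rw [coeff_add, hc m (by omega), coeff_X_pow, if_neg (by omega), add_zero]
  · norm_num

theorem kerA (k : ℕ) (g g' : Gk (k + 1)) (hg : g ≠ g') :
    |∑ j : Jk k, Av k j g * Av k j g'| ≤ ep k * Fintype.card (Jk k) := by
  classical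
  rw [ep_mul]
  have h1 : ∀ j : Jk k, Av k j g * Av k j g' =
      sg ((fk (k + 1)).toAddMonoidHom ((pol 8 (g - g')).eval j.1 * j.2)) := by
    intro j
    unfold Av
    rw [← sg_add, LA_apply, LA_apply]
    congr 1
    rw [← pol_sub]
    simp only [LinearMap.toAddMonoidHom_coe, eval_sub, sub_mul, map_sub]
    have h2 := zmod2_add_self (fk (k + 1) (j.1 ^ 8 * j.2))
    have h3 : ∀ a : ZMod 2, -a = a := by
      intro a
      rw [neg_eq_iff_add_eq_zero]; exact zmod2_add_self a
    rw [sub_eq_add_neg, h3]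
    linear_combination h2
  simp only [h1]
  refine (abs_sum_poly (fk (k + 1)).toAddMonoidHom (fk_ne' _) _
    (pol_ne_zero 8 _ (sub_ne_zero.2 hg)) 8 (pol_natDegree _ _)).trans (le_of_eq (by norm_num))

theorem kerB (k : ℕ) (h h' : Gk k) (hh : h ≠ h') :
    |∑ j : Jk k, Bv k j h * Bv k j h'| ≤ ep k * Fintype.card (Jk k) := by
  classical
  rw [ep_mul]
  have h1 : ∀ j : Jk k, Bv k j h * Bv k j h' = sg (cS k h + cS k h') *
      sg ((fk (k + 1)).toAddMonoidHom ((pol 4 (theta k h - theta k h')).eval j.1 * j.2)) := by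
    intro j
    unfold Bv
    rw [← sg_add, ← sg_add, LB_apply, LB_apply]
    congr 1
    rw [← pol_sub]
    simp only [LinearMap.toAddMonoidHom_coe, eval_sub, sub_mul, map_sub]
    have h3 : ∀ a : ZMod 2, -a = a := by
      intro a
      rw [neg_eq_iff_add_eq_zero]; exact zmod2_add_self a
    rw [sub_eq_add_neg, h3]
    ring
  simp only [h1]
  rw [← Finset.mul_sum, abs_mul, abs_sg, one_mul]
  refine (abs_sum_poly (fk (k + 1)).toAddMonoidHom (fk_ne' _) _
    (pol_ne_zero 4 _ ?_) 4 (pol_natDegree _ _)).trans ?_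
  · intro h0
    exact hh ((theta k).injective (sub_eq_zero.1 h0))
  · have := real_card_pos (k + 1)
    push_cast
    nlinarith

/-- the relation that governs the Gram matrices -/
def Cond {F : Type*} [Field F] (i j : F × F) : Prop := i.2 = j.2 ∧ i.1 * i.2 = j.1 * j.2

theorem cond_pow {F : Type*} [Field F] (i j : F × F) (h : Cond i j) (n : ℕ) :
    i.1 ^ n * i.2 = j.1 ^ n * j.2 := by
  obtain ⟨h1, h2⟩ := h
  by_cases h0 : i.2 = 0
  · rw [← h1, h0, mul_zero, mul_zero]
  · have h3 : i.1 = j.1 := by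
      rw [← h1] at h2
      exact mul_right_cancel₀ h0 h2
    rw [h3, h1]

theorem cond_pol {F : Type*} [Field F] (i j : F × F) (h : Cond i j) (n : ℕ) (c : Fin n → F) :
    (pol n c).eval i.1 * i.2 = (pol n c).eval j.1 * j.2 := by
  rw [pol_eval, pol_eval, Finset.sum_mul, Finset.sum_mul]
  refine Finset.sum_congr rfl (fun m _ => ?_)
  rw [mul_assoc, mul_assoc, cond_pow i j h]

theorem pol_single {F : Type*} [Field F] (n : ℕ) (m : Fin n) (c : F) (x : F) :
    (pol n (Pi.single m c)).eval x = c * x ^ (m : ℕ) := by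
  rw [pol_eval, Finset.sum_eq_single m]
  · rw [Pi.single_eq_same]
  · intro b _ hb
    rw [Pi.single_eq_of_ne hb, zero_mul]
  · intro hm
    exact absurd (Finset.mem_univ _) hm

theorem exists_f_ne {F : Type*} [Field F] (f : F →+ ZMod 2) (hf : f ≠ 0) (a : F) (ha : a ≠ 0) :
    ∃ c, f (c * a) ≠ 0 := by
  obtain ⟨z, hz⟩ : ∃ z, f z ≠ 0 := by
    by_contra hcon
    push Not at hcon
    exact hf (AddMonoidHom.ext hcon)
  refine ⟨z * a⁻¹, ?_⟩
  rw [inv_mul_cancel_right₀ ha]
  exact hz

theorem not_cond {F : Type*} [Field F] [CharP F 2] (f : F →+ ZMod 2) (hf : f ≠ 0) (i j : F × F)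
    (h : ¬ Cond i j) (n : ℕ) (hn : 2 ≤ n) :
    ∃ v : Fin n → F, f ((pol n v).eval i.1 * i.2) + f ((pol n v).eval j.1 * j.2) ≠ 0 := by
  by_cases h1 : i.2 = j.2
  · have h2 : i.1 * i.2 ≠ j.1 * j.2 := fun h2 => h ⟨h1, h2⟩
    have h3 : i.1 * i.2 + j.1 * j.2 ≠ 0 := fun h3 => h2 (CharTwo.add_eq_zero.1 h3)
    obtain ⟨c, hc⟩ := exists_f_ne f hf _ h3
    refine ⟨Pi.single ⟨1, by omega⟩ c, ?_⟩
    rw [pol_single, pol_single, ← map_add]
    convert hc using 2
    simp only [pow_one]
    ring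
  · have h3 : i.2 + j.2 ≠ 0 := fun h3 => h1 (CharTwo.add_eq_zero.1 h3)
    obtain ⟨c, hc⟩ := exists_f_ne f hf _ h3
    refine ⟨Pi.single ⟨0, by omega⟩ c, ?_⟩
    rw [pol_single, pol_single, ← map_add]
    convert hc using 2
    simp only [pow_zero]
    ring

open Classical in
theorem gramA (k : ℕ) (i j : Jk k) :
    (∑ g : Gk (k + 1), Av k i g * Av k j g) / Fintype.card (Gk (k + 1)) =
      if Cond i j then 1 else 0 := by
  split_ifs with h
  · have h1 : ∀ g : Gk (k + 1), Av k i g * Av k j g = 1 := by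
      intro g
      have : Av k i g = Av k j g := by
        unfold Av
        rw [LA_apply, LA_apply, cond_pol i j h, cond_pow i j h]
      rw [this, Av_sq]
    simp only [h1, Finset.sum_const, Finset.card_univ, nsmul_eq_mul, mul_one]
    rw [div_self]
    exact_mod_cast (Fintype.card_pos (α := Gk (k + 1))).ne'
  · obtain ⟨v, hv⟩ := not_cond (fk (k + 1)).toAddMonoidHom (fk_ne' _) i j h 8 (by norm_num)
    have h1 := sum_sg_hom (LA k i + LA k j).toAddMonoidHom v (by
      simp only [LinearMap.toAddMonoidHom_coe, LinearMap.add_apply]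
      rw [LA_apply, LA_apply]
      exact hv)
    have h2 : ∀ g, Av k i g * Av k j g = sg (fk (k + 1) (i.1 ^ 8 * i.2) +
        fk (k + 1) (j.1 ^ 8 * j.2)) * sg ((LA k i + LA k j).toAddMonoidHom g) := by
      intro g
      unfold Av
      rw [← sg_add, ← sg_add]
      congr 1
      simp only [LinearMap.toAddMonoidHom_coe, LinearMap.add_apply]
      ring
    simp only [h2]
    rw [← Finset.mul_sum, h1, mul_zero, zero_div]

open Classical in
theorem gramB (k : ℕ) (i j : Jk k) :
    (∑ g : Gk k, Bv k i g * Bv k j g) / Fintype.card (Gk k) =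
      if Cond i j then 1 else 0 := by
  split_ifs with h
  · have h1 : ∀ g : Gk k, Bv k i g * Bv k j g = 1 := by
      intro g
      have : Bv k i g = Bv k j g := by
        unfold Bv
        rw [LB_apply, LB_apply, cond_pol i j h]
      rw [this, Bv_sq]
    simp only [h1, Finset.sum_const, Finset.card_univ, nsmul_eq_mul, mul_one]
    rw [div_self]
    exact_mod_cast (Fintype.card_pos (α := Gk k)).ne'
  · obtain ⟨v, hv⟩ := not_cond (fk (k + 1)).toAddMonoidHom (fk_ne' _) i j h 4 (by norm_num)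
    have h1 := sum_sg_hom (LB k i + LB k j).toAddMonoidHom ((theta k).symm v) (by
      simp only [LinearMap.toAddMonoidHom_coe, LinearMap.add_apply]
      rw [LB_apply, LB_apply, LinearEquiv.apply_symm_apply]
      exact hv)
    have h2 : ∀ g, Bv k i g * Bv k j g = sg ((LB k i + LB k j).toAddMonoidHom g) := by
      intro g
      unfold Bv
      rw [← sg_add]
      congr 1
      simp only [LinearMap.toAddMonoidHom_coe, LinearMap.add_apply]
      linear_combination zmod2_add_self (cS k g)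
    simp only [h2]
    rw [h1, zero_div]

theorem gram (k : ℕ) (i j : Jk k) :
    (∑ g : Gk (k + 1), Av k i g * Av k j g) / Fintype.card (Gk (k + 1)) =
    (∑ g : Gk k, Bv k i g * Bv k j g) / Fintype.card (Gk k) := by
  rw [gramA, gramB]

/-- number of indices, as a real number -/
noncomputable irreducible_def cJ (k : ℕ) : ℝ := Fintype.card (Jk k)

/-- number of points, as a real number -/
noncomputable irreducible_def cG (k : ℕ) : ℝ := Fintype.card (Gk k)

theorem cJ_pos (k : ℕ) : 0 < cJ k := by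
  rw [cJ_def, card_Jk]; positivity

theorem cG_pos (k : ℕ) : 0 < cG k := by
  rw [cG_def, card_Gk]; positivity

theorem sum_one_J (k : ℕ) : ∑ _j : Jk k, (1 : ℝ) = cJ k := by
  rw [cJ_def, Finset.sum_const, Finset.card_univ, nsmul_eq_mul, mul_one]

theorem sum_one_G (k : ℕ) : ∑ _j : Gk k, (1 : ℝ) = cG k := by
  rw [cG_def, Finset.sum_const, Finset.card_univ, nsmul_eq_mul, mul_one]

theorem two_pow_ge (k : ℕ) : k + 1 ≤ 2 ^ k := by
  induction k with
  | zero => norm_num
  | succ n ih => rw [pow_succ]; omega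

theorem ep_le (k : ℕ) : ep k ≤ 2 / 4 ^ k := by
  unfold ep
  rw [card_Fd]
  push_cast
  have h1 : (2 : ℝ) ^ (2 * (k + 1)) ≤ 2 ^ (2 ^ (k + 1)) := by
    apply pow_le_pow_right₀ (by norm_num)
    have := two_pow_ge k
    rw [pow_succ]; omega
  have h2 : (2 : ℝ) ^ (2 * (k + 1)) = 4 * 4 ^ k := by
    rw [pow_mul]; norm_num [pow_succ]; ring
  rw [div_le_div_iff₀ (by positivity) (by positivity)]
  rw [h2] at h1
  have h3 : (0 : ℝ) < 4 ^ k := by positivity
  nlinarith

theorem ep_nonneg (k : ℕ) : 0 ≤ ep k := by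
  unfold ep; positivity

/-- the small quantity, irreducible form -/
noncomputable irreducible_def eps (k : ℕ) : ℝ := ep k

theorem eps_nonneg (k : ℕ) : 0 ≤ eps k := by
  rw [eps_def]; exact ep_nonneg k

theorem eps_le (k : ℕ) : eps k ≤ 2 / 4 ^ k := by
  rw [eps_def]; exact ep_le k

theorem abs_div_le (S e c : ℝ) (hc : 0 < c) (h : |S| ≤ e * c) : |S / c| ≤ e := by
  rw [abs_div, abs_of_pos hc, div_le_iff₀ hc]
  exact h

theorem cross' (k : ℕ) (g : Gk (k + 1)) (h : Gk k) :
    |(∑ j : Jk k, Av k j g * Bv k j h) / cJ k| ≤ eps k := by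
  refine abs_div_le _ _ _ (cJ_pos k) ?_
  rw [cJ_def, eps_def]
  exact cross k g h

theorem kerA' (k : ℕ) (g g' : Gk (k + 1)) (hg : g ≠ g') :
    |(∑ j : Jk k, Av k j g * Av k j g') / cJ k| ≤ eps k := by
  refine abs_div_le _ _ _ (cJ_pos k) ?_
  rw [cJ_def, eps_def]
  exact kerA k g g' hg

theorem kerB' (k : ℕ) (h h' : Gk k) (hh : h ≠ h') :
    |(∑ j : Jk k, Bv k j h * Bv k j h') / cJ k| ≤ eps k := by
  refine abs_div_le _ _ _ (cJ_pos k) ?_
  rw [cJ_def, eps_def]
  exact kerB k h h' hh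

theorem gram' (k : ℕ) (i j : Jk k) :
    (∑ g : Gk (k + 1), Av k i g * Av k j g) / cG (k + 1) =
    (∑ g : Gk k, Bv k i g * Bv k j g) / cG k := by
  rw [cG_def, cG_def]
  exact gram k i j

end Pool.Agent.Helper38.Davie
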