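import Mathlib
import Pool.Agent.Helper38.DavieLevels

/-!
A Banach space without the approximation property (Enflo's theorem), by Davie's method, over
`ℝ` or `ℂ`, realised as a closed subspace of a space of bounded functions.
-/

set_option autoImplicit false

namespace Pool.Agent.Helper38.Davie

open Finset Filter Topology
open scoped ENNReal

universe u

section real

/-- real-valued generators -/
noncomputable def er (k : ℕ) (j : Jk k) : (m : ℕ) → Gk m → ℝ :=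
  Pi.single (k + 1) (Av k j) + Pi.single k (Bv k j)

theorem er_succ (k : ℕ) (j : Jk k) (g : Gk (k + 1)) : er k j (k + 1) g = Av k j g := by
  unfold er
  rw [Pi.add_apply, Pi.single_eq_same, Pi.single_eq_of_ne (by omega)]
  simp

theorem er_same (k : ℕ) (j : Jk k) (g : Gk k) : er k j k g = Bv k j g := by
  unfold er
  rw [Pi.add_apply, Pi.single_eq_same, Pi.single_eq_of_ne (by omega)]
  simp

theorem er_other (k : ℕ) (j : Jk k) (m : ℕ) (h1 : m ≠ k + 1) (h2 : m ≠ k) (g : Gk m) :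
    er k j m g = 0 := by
  unfold er
  rw [Pi.add_apply, Pi.single_eq_of_ne h1, Pi.single_eq_of_ne h2]
  simp

theorem abs_Av (k : ℕ) (j : Jk k) (g : Gk (k + 1)) : |Av k j g| = 1 := abs_sg _

theorem abs_Bv (k : ℕ) (j : Jk k) (g : Gk k) : |Bv k j g| = 1 := abs_sg _

theorem abs_er (k : ℕ) (j : Jk k) (m : ℕ) (g : Gk m) : |er k j m g| ≤ 1 := by
  by_cases h1 : m = k + 1
  · subst h1
    rw [er_succ, abs_Av]
  · by_cases h2 : m = k
    · subst h2
      rw [er_same, abs_Bv]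
    · rw [er_other k j m h1 h2, abs_zero]; norm_num

/-- real-valued `ψ` -/
noncomputable def psr (k : ℕ) (g : Gk (k + 1)) (m : ℕ) (h : Gk m) : ℝ :=
  (∑ j : Jk (k + 1), Bv (k + 1) j g * er (k + 1) j m h) / cJ (k + 1) -
    (∑ j : Jk k, Av k j g * er k j m h) / cJ k

theorem abs_psr (k : ℕ) (g : Gk (k + 1)) (m : ℕ) (h : Gk m) :
    |psr k g m h| ≤ eps k + eps (k + 1) := by
  have e1 := eps_nonneg k
  have e2 := eps_nonneg (k + 1)
  unfold psr
  by_cases h1 : m = k + 2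
  · subst h1
    have h2 : ∀ j : Jk k, er k j (k + 2) h = 0 := fun j => er_other k j _ (by omega) (by omega) h
    have h3 : ∀ j : Jk (k + 1), er (k + 1) j (k + 2) h = Av (k + 1) j h :=
      fun j => er_succ (k + 1) j h
    simp only [h2, h3, mul_zero, Finset.sum_const_zero, zero_div, sub_zero]
    have h4 : ∑ j : Jk (k + 1), Bv (k + 1) j g * Av (k + 1) j h =
        ∑ j : Jk (k + 1), Av (k + 1) j h * Bv (k + 1) j g :=
      Finset.sum_congr rfl (fun j _ => mul_comm _ _)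
    rw [h4]
    have := cross' (k + 1) h g
    linarith
  · by_cases h2 : m = k + 1
    · subst h2
      have h3 : ∀ j : Jk k, er k j (k + 1) h = Av k j h := fun j => er_succ k j h
      have h4 : ∀ j : Jk (k + 1), er (k + 1) j (k + 1) h = Bv (k + 1) j h :=
        fun j => er_same (k + 1) j h
      simp only [h3, h4]
      by_cases hgh : g = h
      · subst hgh
        simp only [Av_sq, Bv_sq, sum_one_J]
        have h5 : cJ (k + 1) / cJ (k + 1) = 1 := div_self (cJ_pos (k + 1)).ne'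
        have h6 : cJ k / cJ k = 1 := div_self (cJ_pos k).ne'
        rw [h5, h6, sub_self, abs_zero]
        exact add_nonneg e1 e2
      · have h5 := kerB' (k + 1) g h hgh
        have h6 := kerA' k g h hgh
        refine (abs_sub _ _).trans ?_
        linarith
    · by_cases h3 : m = k
      · subst h3
        have h4 : ∀ j : Jk m, er m j m h = Bv m j h := fun j => er_same m j h
        have h5 : ∀ j : Jk (m + 1), er (m + 1) j m h = 0 :=
          fun j => er_other (m + 1) j m (by omega) (by omega) h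
        simp only [h4, h5, mul_zero, Finset.sum_const_zero, zero_div, zero_sub, abs_neg]
        have := cross' m g h
        linarith
      · have h4 : ∀ j : Jk k, er k j m h = 0 := fun j => er_other k j m h2 h3 h
        have h5 : ∀ j : Jk (k + 1), er (k + 1) j m h = 0 :=
          fun j => er_other (k + 1) j m h1 h2 h
        simp only [h4, h5, mul_zero, Finset.sum_const_zero, zero_div, sub_zero, abs_zero]
        exact add_nonneg e1 e2

end real

variable (𝕜 : Type) [RCLike 𝕜]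

/-- index set -/
abbrev Idx : Type u := ULift.{u} (Σ k : ℕ, Gk k)

/-- bounded functions on the index set -/
abbrev V : Type u := lp (fun _ : Idx.{u} => 𝕜) ∞

/-- a bounded real function as an element of `V` -/
noncomputable def toV (F : (m : ℕ) → Gk m → ℝ) (hF : ∃ C, ∀ m g, |F m g| ≤ C) : V.{u} 𝕜 :=
  ⟨fun i => ((F i.down.1 i.down.2 : ℝ) : 𝕜), memℓp_infty (by
    obtain ⟨C, hC⟩ := hF
    refine ⟨C, ?_⟩
    rintro _ ⟨i, rfl⟩
    simp only [RCLike.norm_ofReal]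
    exact hC _ _)⟩

/-- point of the index set -/
def pt (k : ℕ) (g : Gk k) : Idx.{u} := ULift.up ⟨k, g⟩

theorem toV_apply (F : (m : ℕ) → Gk m → ℝ) (hF : ∃ C, ∀ m g, |F m g| ≤ C) (k : ℕ) (g : Gk k) :
    (toV.{u} 𝕜 F hF : V.{u} 𝕜) (pt k g) = ((F k g : ℝ) : 𝕜) := rfl

/-- generators in `V` -/
noncomputable def eV (k : ℕ) (j : Jk k) : V.{u} 𝕜 := toV 𝕜 (er k j) ⟨1, abs_er k j⟩

/-- The space. -/
noncomputable def spc : Submodule 𝕜 (V.{u} 𝕜) :=
  (Submodule.span 𝕜 (Set.range (fun p : Σ k, Jk k => eV.{u} 𝕜 p.1 p.2))).topologicalClosure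

/-- The Banach space without approximation property. -/
abbrev X : Type u := spc.{u} 𝕜

instance : CompleteSpace (X.{u} 𝕜) :=
  (Submodule.isClosed_topologicalClosure _).completeSpace_coe

/-- generators -/
noncomputable def eX (k : ℕ) (j : Jk k) : X.{u} 𝕜 :=
  ⟨eV 𝕜 k j, subset_closure (Submodule.subset_span ⟨⟨k, j⟩, rfl⟩)⟩

/-- evaluation -/
noncomputable def evl (k : ℕ) (g : Gk k) : V.{u} 𝕜 →L[𝕜] 𝕜 :=
  lp.evalCLM 𝕜 (fun _ : Idx.{u} => 𝕜) ∞ (pt k g)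

theorem evl_apply (k : ℕ) (g : Gk k) (x : V.{u} 𝕜) : evl 𝕜 k g x = x (pt k g) := rfl

theorem norm_evl_le (k : ℕ) (g : Gk k) (x : V.{u} 𝕜) : ‖evl 𝕜 k g x‖ ≤ ‖x‖ :=
  lp.norm_apply_le_norm (by simp) x (pt k g)

theorem evl_eV (k : ℕ) (g : Gk k) (m : ℕ) (j : Jk m) :
    evl 𝕜 k g (eV.{u} 𝕜 m j) = ((er m j k g : ℝ) : 𝕜) := rfl

/-- the coefficient functionals, first form -/
noncomputable def alA (k : ℕ) (j : Jk k) : V.{u} 𝕜 →L[𝕜] 𝕜 :=
  (((cG (k + 1))⁻¹ : ℝ) : 𝕜) • ∑ g : Gk (k + 1), ((Av k j g : ℝ) : 𝕜) • evl 𝕜 (k + 1) g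

/-- the coefficient functionals, second form -/
noncomputable def alB (k : ℕ) (j : Jk k) : V.{u} 𝕜 →L[𝕜] 𝕜 :=
  (((cG k)⁻¹ : ℝ) : 𝕜) • ∑ g : Gk k, ((Bv k j g : ℝ) : 𝕜) • evl 𝕜 k g

theorem alA_apply (k : ℕ) (j : Jk k) (x : V.{u} 𝕜) : alA 𝕜 k j x =
    (((cG (k + 1))⁻¹ : ℝ) : 𝕜) *
      ∑ g : Gk (k + 1), ((Av k j g : ℝ) : 𝕜) * evl 𝕜 (k + 1) g x := by
  unfold alA
  rw [_root_.smul_apply, _root_.sum_apply]
  rfl

theorem alB_apply (k : ℕ) (j : Jk k) (x : V.{u} 𝕜) : alB 𝕜 k j x =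
    (((cG k)⁻¹ : ℝ) : 𝕜) *
      ∑ g : Gk k, ((Bv k j g : ℝ) : 𝕜) * evl 𝕜 k g x := by
  unfold alB
  rw [_root_.smul_apply, _root_.sum_apply]
  rfl

theorem al_real (k : ℕ) (i : Jk k) (m : ℕ) (j : Jk m) :
    (cG (k + 1))⁻¹ * ∑ g : Gk (k + 1), Av k i g * er m j (k + 1) g =
    (cG k)⁻¹ * ∑ g : Gk k, Bv k i g * er m j k g := by
  by_cases h1 : m = k
  · subst h1
    simp only [er_succ, er_same]
    have := gram' m i j
    rw [div_eq_inv_mul, div_eq_inv_mul] at this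
    exact this
  · by_cases h2 : m = k + 1
    · subst h2
      have h3 : ∀ g : Gk (k + 1), er (k + 1) j (k + 1) g = Bv (k + 1) j g :=
        fun g => er_same (k + 1) j g
      have h4 : ∀ g : Gk k, er (k + 1) j k g = 0 :=
        fun g => er_other (k + 1) j k (by omega) (by omega) g
      simp only [h3, h4, mul_zero, Finset.sum_const_zero]
      rw [orth, mul_zero]
    · by_cases h3 : k = m + 1
      · subst h3
        have h4 : ∀ g : Gk (m + 1 + 1), er m j (m + 1 + 1) g = 0 :=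
          fun g => er_other m j _ (by omega) (by omega) g
        have h5 : ∀ g : Gk (m + 1), er m j (m + 1) g = Av m j g :=
          fun g => er_succ m j g
        simp only [h4, h5, mul_zero, Finset.sum_const_zero]
        have h6 : ∑ g : Gk (m + 1), Bv (m + 1) i g * Av m j g =
            ∑ g : Gk (m + 1), Av m j g * Bv (m + 1) i g :=
          Finset.sum_congr rfl (fun _ _ => mul_comm _ _)
        rw [h6, orth, mul_zero]
      · have h4 : ∀ g : Gk (k + 1), er m j (k + 1) g = 0 :=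
          fun g => er_other m j _ (by omega) (by omega) g
        have h5 : ∀ g : Gk k, er m j k g = 0 :=
          fun g => er_other m j _ (by omega) (by omega) g
        simp only [h4, h5, mul_zero, Finset.sum_const_zero]

/-- the two forms agree on the space -/
theorem al_eq (k : ℕ) (i : Jk k) (x : X.{u} 𝕜) : alA 𝕜 k i (x : V.{u} 𝕜) = alB 𝕜 k i x := by
  have h := ContinuousLinearMap.eqOn_closure_span
    (s := Set.range (fun p : Σ k, Jk k => eV.{u} 𝕜 p.1 p.2))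
    (f := alA.{u} 𝕜 k i) (g := alB.{u} 𝕜 k i) (by
      rintro _ ⟨⟨m, j⟩, rfl⟩
      rw [alA_apply, alB_apply]
      simp only [evl_eV]
      have := al_real k i m j
      exact_mod_cast congrArg (fun r : ℝ => (r : 𝕜)) this)
  exact h x.2

/-- elements of the space vanish at infinity -/
theorem vanish (x : X.{u} 𝕜) (ε : ℝ) (hε : 0 < ε) :
    ∃ N : ℕ, ∀ k, N ≤ k → ∀ g : Gk k, ‖evl 𝕜 k g (x : V.{u} 𝕜)‖ ≤ ε := by
  have hx : (x : V.{u} 𝕜) ∈ closure (Submodule.span 𝕜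
      (Set.range (fun p : Σ k, Jk k => eV.{u} 𝕜 p.1 p.2)) : Set (V.{u} 𝕜)) := x.2
  obtain ⟨y, hy, hxy⟩ := Metric.mem_closure_iff.1 hx ε hε
  have hN : ∃ N : ℕ, ∀ k, N ≤ k → ∀ g : Gk k, evl 𝕜 k g y = 0 := by
    refine Submodule.span_induction (p := fun y _ =>
      ∃ N : ℕ, ∀ k, N ≤ k → ∀ g : Gk k, evl 𝕜 k g y = 0) ?_ ?_ ?_ ?_ hy
    · rintro _ ⟨⟨m, j⟩, rfl⟩
      refine ⟨m + 2, fun k hk g => ?_⟩
      rw [evl_eV, er_other m j k (by omega) (by omega)]
      simp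
    · exact ⟨0, fun k _ g => map_zero _⟩
    · rintro a b _ _ ⟨N1, h1⟩ ⟨N2, h2⟩
      refine ⟨max N1 N2, fun k hk g => ?_⟩
      rw [map_add, h1 k (le_trans (le_max_left _ _) hk), h2 k (le_trans (le_max_right _ _) hk),
        add_zero]
    · rintro c a _ ⟨N1, h1⟩
      refine ⟨N1, fun k hk g => ?_⟩
      rw [map_smul, h1 k hk, smul_zero]
  obtain ⟨N, hN⟩ := hN
  refine ⟨N, fun k hk g => ?_⟩
  have h1 : evl 𝕜 k g (x : V.{u} 𝕜) = evl 𝕜 k g ((x : V.{u} 𝕜) - y) := by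
    rw [map_sub, hN k hk g, sub_zero]
  rw [h1]
  refine (norm_evl_le 𝕜 k g _).trans ?_
  rw [← dist_eq_norm]
  exact hxy.le

theorem norm_eX_le (k : ℕ) (j : Jk k) : ‖eX.{u} 𝕜 k j‖ ≤ 1 := by
  show ‖eV.{u} 𝕜 k j‖ ≤ 1
  refine lp.norm_le_of_forall_le zero_le_one ?_
  intro i
  show ‖((er k j i.down.1 i.down.2 : ℝ) : 𝕜)‖ ≤ 1
  rw [RCLike.norm_ofReal]
  exact abs_er _ _ _ _

/-- the vectors `ψ` -/
noncomputable def psi (k : ℕ) (g : Gk (k + 1)) : X.{u} 𝕜 :=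
  (((cJ (k + 1))⁻¹ : ℝ) : 𝕜) •
      ∑ j : Jk (k + 1), ((Bv (k + 1) j g : ℝ) : 𝕜) • eX 𝕜 (k + 1) j -
    (((cJ k)⁻¹ : ℝ) : 𝕜) • ∑ j : Jk k, ((Av k j g : ℝ) : 𝕜) • eX 𝕜 k j

theorem evl_psi (k : ℕ) (g : Gk (k + 1)) (m : ℕ) (h : Gk m) :
    evl 𝕜 m h (psi.{u} 𝕜 k g : V.{u} 𝕜) = ((psr k g m h : ℝ) : 𝕜) := by
  have h1 : (psi.{u} 𝕜 k g : V.{u} 𝕜) = (((cJ (k + 1))⁻¹ : ℝ) : 𝕜) •
      ∑ j : Jk (k + 1), ((Bv (k + 1) j g : ℝ) : 𝕜) • eV 𝕜 (k + 1) j -
    (((cJ k)⁻¹ : ℝ) : 𝕜) • ∑ j : Jk k, ((Av k j g : ℝ) : 𝕜) • eV 𝕜 k j := by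
    unfold psi
    push_cast
    rfl
  rw [h1, map_sub, map_smul, map_smul, map_sum, map_sum]
  simp only [map_smul, evl_eV, smul_eq_mul]
  unfold psr
  push_cast
  rw [div_eq_inv_mul, div_eq_inv_mul]

theorem norm_psi_le (k : ℕ) (g : Gk (k + 1)) : ‖psi.{u} 𝕜 k g‖ ≤ eps k + eps (k + 1) := by
  show ‖(psi.{u} 𝕜 k g : V.{u} 𝕜)‖ ≤ eps k + eps (k + 1)
  have e1 := eps_nonneg k
  have e2 := eps_nonneg (k + 1)
  refine lp.norm_le_of_forall_le (add_nonneg e1 e2) ?_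
  rintro ⟨⟨m, h⟩⟩
  have := evl_psi.{u} 𝕜 k g m h
  rw [evl_apply] at this
  show ‖(psi.{u} 𝕜 k g : V.{u} 𝕜) (pt m h)‖ ≤ _
  rw [this, RCLike.norm_ofReal]
  exact abs_psr k g m h

end Pool.Agent.Helper38.Davie
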