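import Mathlib
import Pool.Agent.Helper38.DavieSpace

/-!
The space constructed in `DavieSpace` does not have the approximation property.
-/

set_option autoImplicit false

namespace Pool.Agent.Helper38.Davie

open Finset Filter Topology
open scoped ENNReal

universe u

variable (𝕜 : Type) [RCLike 𝕜]

/-- trace-like functional of level `k` -/
noncomputable def beta (k : ℕ) (S : X.{u} 𝕜 →L[𝕜] X.{u} 𝕜) : 𝕜 :=
  (((cJ k)⁻¹ : ℝ) : 𝕜) * ∑ j : Jk k, alA 𝕜 k j (S (eX 𝕜 k j) : V.{u} 𝕜)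

theorem beta_sub (k : ℕ) (S T : X.{u} 𝕜 →L[𝕜] X.{u} 𝕜) :
    beta 𝕜 k (S - T) = beta 𝕜 k S - beta 𝕜 k T := by
  unfold beta
  rw [← mul_sub, ← Finset.sum_sub_distrib]
  congr 1
  refine Finset.sum_congr rfl (fun j _ => ?_)
  rw [_root_.sub_apply, Submodule.coe_sub, map_sub]

theorem norm_avg {ι : Type*} [Fintype ι] (c : ℝ) (hc : 0 < c) (hsum : ∑ _i : ι, (1 : ℝ) = c)
    (f : ι → 𝕜) (M : ℝ) (hf : ∀ i, ‖f i‖ ≤ M) :
    ‖((c⁻¹ : ℝ) : 𝕜) * ∑ i, f i‖ ≤ M := by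
  rw [norm_mul, RCLike.norm_ofReal, abs_of_pos (inv_pos.2 hc)]
  have h1 : ‖∑ i, f i‖ ≤ ∑ _i : ι, M :=
    (norm_sum_le _ _).trans (Finset.sum_le_sum (fun i _ => hf i))
  have h2 : ∑ _i : ι, M = c * M := by
    rw [← hsum, Finset.sum_mul]
    simp
  rw [h2] at h1
  calc c⁻¹ * ‖∑ i, f i‖ ≤ c⁻¹ * (c * M) := mul_le_mul_of_nonneg_left h1 (inv_pos.2 hc).le
    _ = M := by field_simp

theorem norm_alA_le (k : ℕ) (j : Jk k) (x : V.{u} 𝕜) (M : ℝ)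
    (h : ∀ g : Gk (k + 1), ‖evl 𝕜 (k + 1) g x‖ ≤ M) : ‖alA 𝕜 k j x‖ ≤ M := by
  rw [alA_apply]
  refine norm_avg 𝕜 _ (cG_pos _) (sum_one_G _) _ M (fun g => ?_)
  rw [norm_mul, RCLike.norm_ofReal, abs_Av, one_mul]
  exact h g

theorem norm_beta_le (k : ℕ) (S : X.{u} 𝕜 →L[𝕜] X.{u} 𝕜) (M : ℝ)
    (h : ∀ (j : Jk k) (g : Gk (k + 1)), ‖evl 𝕜 (k + 1) g (S (eX 𝕜 k j) : V.{u} 𝕜)‖ ≤ M) :
    ‖beta 𝕜 k S‖ ≤ M := by
  unfold beta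
  exact norm_avg 𝕜 _ (cJ_pos _) (sum_one_J _) _ M (fun j => norm_alA_le 𝕜 k j _ M (h j))

theorem alA_eX (k : ℕ) (j : Jk k) : alA 𝕜 k j (eX.{u} 𝕜 k j : V.{u} 𝕜) = 1 := by
  rw [alA_apply]
  have h1 : ∀ g : Gk (k + 1), evl 𝕜 (k + 1) g (eX.{u} 𝕜 k j : V.{u} 𝕜) = ((Av k j g : ℝ) : 𝕜) := by
    intro g
    show evl 𝕜 (k + 1) g (eV.{u} 𝕜 k j) = _
    rw [evl_eV, er_succ]
  simp only [h1]
  have h2 : (cG (k + 1))⁻¹ * ∑ g : Gk (k + 1), Av k j g * Av k j g = 1 := by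
    simp only [Av_sq]
    rw [sum_one_G]
    exact inv_mul_cancel₀ (cG_pos _).ne'
  exact_mod_cast congrArg (fun r : ℝ => (r : 𝕜)) h2

theorem beta_id (k : ℕ) : beta.{u} 𝕜 k (ContinuousLinearMap.id 𝕜 _) = 1 := by
  unfold beta
  simp only [ContinuousLinearMap.id_apply, alA_eX]
  have h2 : (cJ k)⁻¹ * ∑ _j : Jk k, (1 : ℝ) = 1 := by
    rw [sum_one_J]
    exact inv_mul_cancel₀ (cJ_pos _).ne'
  exact_mod_cast congrArg (fun r : ℝ => (r : 𝕜)) h2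

theorem beta_step (k : ℕ) (S : X.{u} 𝕜 →L[𝕜] X.{u} 𝕜) :
    beta 𝕜 (k + 1) S - beta 𝕜 k S = (((cG (k + 1))⁻¹ : ℝ) : 𝕜) *
      ∑ g : Gk (k + 1), evl 𝕜 (k + 1) g (S (psi 𝕜 k g) : V.{u} 𝕜) := by
  have h1 : beta 𝕜 (k + 1) S = (((cG (k + 1))⁻¹ : ℝ) : 𝕜) * ∑ g : Gk (k + 1),
      (((cJ (k + 1))⁻¹ : ℝ) : 𝕜) * ∑ j : Jk (k + 1), ((Bv (k + 1) j g : ℝ) : 𝕜) *
        evl 𝕜 (k + 1) g (S (eX 𝕜 (k + 1) j) : V.{u} 𝕜) := by
    unfold beta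
    simp only [al_eq, alB_apply]
    rw [← Finset.mul_sum, ← Finset.mul_sum, Finset.sum_comm]
    ring
  have h2 : beta 𝕜 k S = (((cG (k + 1))⁻¹ : ℝ) : 𝕜) * ∑ g : Gk (k + 1),
      (((cJ k)⁻¹ : ℝ) : 𝕜) * ∑ j : Jk k, ((Av k j g : ℝ) : 𝕜) *
        evl 𝕜 (k + 1) g (S (eX 𝕜 k j) : V.{u} 𝕜) := by
    unfold beta
    simp only [alA_apply]
    rw [← Finset.mul_sum, ← Finset.mul_sum, Finset.sum_comm]
    ring
  have h3 : ∀ g : Gk (k + 1), evl 𝕜 (k + 1) g (S (psi 𝕜 k g) : V.{u} 𝕜) =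
      (((cJ (k + 1))⁻¹ : ℝ) : 𝕜) * ∑ j : Jk (k + 1), ((Bv (k + 1) j g : ℝ) : 𝕜) *
        evl 𝕜 (k + 1) g (S (eX 𝕜 (k + 1) j) : V.{u} 𝕜) -
      (((cJ k)⁻¹ : ℝ) : 𝕜) * ∑ j : Jk k, ((Av k j g : ℝ) : 𝕜) *
        evl 𝕜 (k + 1) g (S (eX 𝕜 k j) : V.{u} 𝕜) := by
    intro g
    unfold psi
    rw [map_sub, map_smul, map_smul, map_sum, map_sum, Submodule.coe_sub, Submodule.coe_smul,
      Submodule.coe_smul, Submodule.coe_sum, Submodule.coe_sum, map_sub, map_smul, map_smul,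
      map_sum, map_sum]
    simp only [map_smul, Submodule.coe_smul, smul_eq_mul]
  rw [h1, h2, ← mul_sub, ← Finset.sum_sub_distrib]
  simp only [h3]

theorem norm_beta_step (k : ℕ) (S : X.{u} 𝕜 →L[𝕜] X.{u} 𝕜) (M : ℝ)
    (h : ∀ g : Gk (k + 1), ‖S (psi 𝕜 k g)‖ ≤ M) :
    ‖beta 𝕜 (k + 1) S - beta 𝕜 k S‖ ≤ M := by
  rw [beta_step]
  refine norm_avg 𝕜 _ (cG_pos _) (sum_one_G _) _ M (fun g => ?_)
  exact (norm_evl_le 𝕜 _ _ _).trans (h g)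

/-- the compact set -/
noncomputable def Kc : Set (X.{u} 𝕜) :=
  insert 0 (Set.range (fun p : Σ k, Gk (k + 1) => (((2 : ℝ) ^ p.1 : ℝ) : 𝕜) • psi.{u} 𝕜 p.1 p.2)) ∪
    Set.range (fun j : Jk 0 => eX.{u} 𝕜 0 j)

theorem isCompact_Kc : IsCompact (Kc.{u} 𝕜) := by
  refine IsCompact.union ?_ (Set.finite_range _).isCompact
  refine Filter.Tendsto.isCompact_insert_range_of_cofinite ?_
  rw [Metric.tendsto_nhds]
  intro ε hε
  rw [Filter.eventually_cofinite]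
  have hlim : Tendsto (fun k : ℕ => 4 * ((1 : ℝ) / 2) ^ k) atTop (𝓝 (4 * 0)) :=
    (tendsto_pow_atTop_nhds_zero_of_lt_one (by norm_num) (by norm_num)).const_mul 4
  rw [mul_zero] at hlim
  obtain ⟨N, hN⟩ := Filter.eventually_atTop.1 (hlim.eventually (gt_mem_nhds hε))
  have hfin : (⋃ k ∈ Finset.range N, Set.range (fun g : Gk (k + 1) =>
      (⟨k, g⟩ : Σ k, Gk (k + 1)))).Finite := by
    refine Set.Finite.biUnion (Finset.finite_toSet _) (fun k _ => Set.finite_range _)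
  refine hfin.subset ?_
  rintro ⟨k, g⟩ hk
  by_contra hcon
  apply hk
  have hkN : N ≤ k := by
    by_contra hlt
    apply hcon
    simp only [Set.mem_iUnion]
    exact ⟨k, Finset.mem_range.2 (by omega), g, rfl⟩
  rw [dist_zero_right, norm_smul, RCLike.norm_ofReal, abs_of_pos (by positivity)]
  have h1 := norm_psi_le.{u} 𝕜 k g
  have h2 := eps_le k
  have h3 := eps_le (k + 1)
  have h4 : (2 : ℝ) / 4 ^ (k + 1) ≤ 2 / 4 ^ k := by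
    apply div_le_div_of_nonneg_left (by norm_num) (by positivity)
    exact pow_le_pow_right₀ (by norm_num) (by omega)
  have h5 : (2 : ℝ) ^ k * (4 / 4 ^ k) = 4 * (1 / 2) ^ k := by
    have : (4 : ℝ) ^ k = 2 ^ k * 2 ^ k := by rw [← mul_pow]; norm_num
    rw [this, one_div, inv_pow]
    field_simp
  calc (2 : ℝ) ^ k * ‖psi.{u} 𝕜 k g‖ ≤ 2 ^ k * (4 / 4 ^ k) := by
        apply mul_le_mul_of_nonneg_left _ (by positivity)
        have h6 : (4 : ℝ) / 4 ^ k = 2 / 4 ^ k + 2 / 4 ^ k := by ring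
        linarith
    _ = 4 * (1 / 2) ^ k := h5
    _ < ε := hN k hkN

/-- a finite rank operator is a finite sum of rank-one operators -/
theorem finrank_decomp {E F : Type*} [NormedAddCommGroup E] [NormedSpace 𝕜 E]
    [NormedAddCommGroup F] [NormedSpace 𝕜 F] (S : E →L[𝕜] F)
    (h : FiniteDimensional 𝕜 (LinearMap.range (S : E →ₗ[𝕜] F))) :
    ∃ (n : ℕ) (φ : Fin n → E →L[𝕜] 𝕜) (y : Fin n → F), ∀ x, S x = ∑ i, φ i x • y i := by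
  obtain ⟨n, ⟨b⟩⟩ : ∃ n, Nonempty (Module.Basis (Fin n) 𝕜 (LinearMap.range (S : E →ₗ[𝕜] F))) :=
    ⟨_, ⟨Module.finBasis 𝕜 _⟩⟩
  refine ⟨n, fun i => (LinearMap.toContinuousLinearMap (b.coord i)).comp
    (S.codRestrict (LinearMap.range (S : E →ₗ[𝕜] F)) (fun x => ⟨x, rfl⟩)), fun i => (b i : F), ?_⟩
  intro x
  have h1 := b.sum_repr ⟨S x, ⟨x, rfl⟩⟩
  have h2 := congrArg (fun z : LinearMap.range (S : E →ₗ[𝕜] F) => (z : F)) h1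
  simp only [Submodule.coe_sum, Submodule.coe_smul] at h2
  exact h2.symm

theorem beta_finrank (S : X.{u} 𝕜 →L[𝕜] X.{u} 𝕜)
    (h : FiniteDimensional 𝕜 (LinearMap.range (S : X.{u} 𝕜 →ₗ[𝕜] X.{u} 𝕜))) (ε : ℝ) (hε : 0 < ε) :
    ∃ k, ‖beta 𝕜 k S‖ ≤ ε := by
  obtain ⟨n, φ, y, hS⟩ := finrank_decomp 𝕜 S h
  obtain ⟨C, hC0, hC⟩ : ∃ C : ℝ, 0 < C ∧ ∀ i, ‖φ i‖ ≤ C := by
    refine ⟨∑ i, ‖φ i‖ + 1, by positivity, fun i => ?_⟩
    have := Finset.single_le_sum (f := fun i => ‖φ i‖) (fun i _ => norm_nonneg (φ i))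
      (Finset.mem_univ i)
    linarith
  have hv : ∀ i : Fin n, ∃ N : ℕ, ∀ k, N ≤ k → ∀ g : Gk k,
      ‖evl 𝕜 k g (y i : V.{u} 𝕜)‖ ≤ ε / (C * (n + 1)) :=
    fun i => vanish 𝕜 (y i) _ (by positivity)
  choose N hN using hv
  obtain ⟨K, hK⟩ : ∃ K, ∀ i, N i ≤ K := ⟨∑ i, N i, fun i =>
    Finset.single_le_sum (f := N) (fun _ _ => Nat.zero_le _) (Finset.mem_univ i)⟩
  refine ⟨K, norm_beta_le 𝕜 K S ε (fun j g => ?_)⟩
  rw [hS, Submodule.coe_sum, map_sum]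
  have h1 : ∀ i : Fin n, ‖evl 𝕜 (K + 1) g ((φ i (eX 𝕜 K j) • y i : X.{u} 𝕜) : V.{u} 𝕜)‖ ≤
      ε / (n + 1) := by
    intro i
    rw [Submodule.coe_smul, map_smul, norm_smul]
    have h2 : ‖φ i (eX 𝕜 K j)‖ ≤ C := by
      refine ((φ i).le_opNorm _).trans ?_
      have h3 := norm_eX_le.{u} 𝕜 K j
      have h4 := hC i
      calc ‖φ i‖ * ‖eX.{u} 𝕜 K j‖ ≤ C * 1 :=
            mul_le_mul h4 h3 (norm_nonneg _) hC0.le
        _ = C := mul_one C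
    have h3 := hN i (K + 1) ((hK i).trans (Nat.le_succ K)) g
    calc ‖φ i (eX 𝕜 K j)‖ * ‖evl 𝕜 (K + 1) g (y i : V.{u} 𝕜)‖ ≤ C * (ε / (C * (n + 1))) :=
          mul_le_mul h2 h3 (norm_nonneg _) hC0.le
      _ = ε / (n + 1) := by field_simp
  calc ‖∑ i, evl 𝕜 (K + 1) g ((φ i (eX 𝕜 K j) • y i : X.{u} 𝕜) : V.{u} 𝕜)‖
      ≤ ∑ _i : Fin n, ε / (n + 1) := (norm_sum_le _ _).trans (Finset.sum_le_sum (fun i _ => h1 i))
    _ = n * (ε / (n + 1)) := by simp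
    _ ≤ ε := by
      rw [mul_div_assoc', div_le_iff₀ (by positivity)]
      nlinarith

/-- **Failure of the approximation property.** -/
theorem noAP (S : X.{u} 𝕜 →L[𝕜] X.{u} 𝕜)
    (h : FiniteDimensional 𝕜 (LinearMap.range (S : X.{u} 𝕜 →ₗ[𝕜] X.{u} 𝕜))) :
    ∃ x ∈ Kc.{u} 𝕜, 1 / 4 < ‖S x - x‖ := by
  by_contra hcon
  push Not at hcon
  obtain ⟨T, hT⟩ : ∃ T : X.{u} 𝕜 →L[𝕜] X.{u} 𝕜, T = S - ContinuousLinearMap.id 𝕜 _ := ⟨_, rfl⟩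
  have hTx : ∀ x ∈ Kc.{u} 𝕜, ‖T x‖ ≤ 1 / 4 := by
    intro x hx
    rw [hT]
    exact hcon x hx
  have h0 : ‖beta 𝕜 0 T‖ ≤ 1 / 4 := by
    refine norm_beta_le 𝕜 0 T _ (fun j g => ?_)
    exact (norm_evl_le 𝕜 _ _ _).trans (hTx _ (Or.inr ⟨j, rfl⟩))
  have hstep : ∀ k, ‖beta 𝕜 (k + 1) T - beta 𝕜 k T‖ ≤ 1 / 4 * (1 / 2) ^ k := by
    intro k
    refine norm_beta_step 𝕜 k T _ (fun g => ?_)
    have h1 := hTx _ (Or.inl (Or.inr ⟨⟨k, g⟩, rfl⟩))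
    simp only at h1
    rw [map_smul, norm_smul, RCLike.norm_ofReal, abs_of_pos (by positivity)] at h1
    have h2 : (0 : ℝ) < 2 ^ k := by positivity
    rw [one_div_pow, ← div_eq_mul_one_div, le_div_iff₀ h2, mul_comm]
    exact h1
  have hsum : ∀ k, ‖beta 𝕜 k T‖ ≤ 1 / 4 + 1 / 4 * (2 - 2 * (1 / 2) ^ k) := by
    intro k
    induction k with
    | zero => simpa using h0
    | succ n ih =>
      have h1 := hstep n
      have h2 : beta 𝕜 (n + 1) T = (beta 𝕜 (n + 1) T - beta 𝕜 n T) + beta 𝕜 n T := by ring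
      rw [h2]
      refine (norm_add_le _ _).trans ?_
      rw [pow_succ]
      linarith
  obtain ⟨k, hk⟩ := beta_finrank 𝕜 S h (1 / 8) (by norm_num)
  have h1 := hsum k
  have h2 : beta 𝕜 k T = beta 𝕜 k S - 1 := by
    rw [hT, beta_sub, beta_id]
  have h3 : (1 : 𝕜) = beta 𝕜 k S - beta 𝕜 k T := by rw [h2]; ring
  have h4 : (1 : ℝ) ≤ ‖beta 𝕜 k S‖ + ‖beta 𝕜 k T‖ := by
    have := norm_sub_le (beta 𝕜 k S) (beta 𝕜 k T)
    rw [← h3, norm_one] at this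
    exact this
  have h5 : (0 : ℝ) < (1 / 2) ^ k := by positivity
  linarith

end Pool.Agent.Helper38.Davie
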