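import Mathlib
import Pool.Agent.Helper38.DavieNoAP

/-!
Banach spaces with the bounded approximation property in which the approximations behave badly
with respect to one fixed approximable operator (a Figiel-Johnson type renorming of the space of
convergent sequences in the space without the approximation property).
-/

set_option autoImplicit false

namespace Pool.Agent.Helper38.Davie

open Finset Filter Topology
open scoped ENNReal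

universe u

/-- real values of the lift, starting at `m`, of the generator `e k j` -/
noncomputable def ur (t : ℝ) (k : ℕ) (j : Jk k) (m : ℕ) : Option ℕ → (k' : ℕ) → Gk k' → ℝ
  | none, k', g => er k j k' g
  | some n, k', g => if m ≤ n then t * er k j k' g else 0

theorem abs_ur (t : ℝ) (k : ℕ) (j : Jk k) (m : ℕ) (o : Option ℕ) (k' : ℕ) (g : Gk k') :
    |ur t k j m o k' g| ≤ max 1 |t| := by
  rcases o with _ | n
  · exact (abs_er k j k' g).trans (le_max_left _ _)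
  · show |if m ≤ n then t * er k j k' g else 0| ≤ _
    split_ifs
    · rw [abs_mul]
      calc |t| * |er k j k' g| ≤ |t| * 1 :=
            mul_le_mul_of_nonneg_left (abs_er k j k' g) (abs_nonneg _)
        _ = |t| := mul_one _
        _ ≤ _ := le_max_right _ _
    · rw [abs_zero]
      exact le_trans zero_le_one (le_max_left _ _)

variable (𝕜 : Type) [RCLike 𝕜]

/-- index set -/
abbrev Idx2 : Type u := ULift.{u} (Option ℕ × Σ k : ℕ, Gk k)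

/-- bounded functions on the index set -/
abbrev V2 : Type u := lp (fun _ : Idx2.{u} => 𝕜) ∞

/-- point of the index set -/
def pt2 (o : Option ℕ) (k : ℕ) (g : Gk k) : Idx2.{u} := ULift.up (o, ⟨k, g⟩)

/-- the generators -/
noncomputable def uV (t : ℝ) (k : ℕ) (j : Jk k) (m : ℕ) : V2.{u} 𝕜 :=
  ⟨fun i => ((ur t k j m i.down.1 i.down.2.1 i.down.2.2 : ℝ) : 𝕜), memℓp_infty (by
    refine ⟨max 1 |t|, ?_⟩
    rintro _ ⟨i, rfl⟩
    simp only [RCLike.norm_ofReal]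
    exact abs_ur _ _ _ _ _ _ _)⟩

theorem uV_apply (t : ℝ) (k : ℕ) (j : Jk k) (m : ℕ) (o : Option ℕ) (k' : ℕ) (g : Gk k') :
    (uV.{u} 𝕜 t k j m : V2.{u} 𝕜) (pt2 o k' g) = ((ur t k j m o k' g : ℝ) : 𝕜) := rfl

/-- The space. -/
noncomputable def spt (t : ℝ) : Submodule 𝕜 (V2.{u} 𝕜) :=
  (Submodule.span 𝕜 {x | ∃ (k : ℕ) (j : Jk k) (m : ℕ), k ≤ m ∧ x = uV.{u} 𝕜 t k j m}).topologicalClosure

/-- The Banach space. -/
abbrev Xt (t : ℝ) : Type u := spt.{u} 𝕜 t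

instance (t : ℝ) : CompleteSpace (Xt.{u} 𝕜 t) :=
  (Submodule.isClosed_topologicalClosure _).completeSpace_coe

theorem uV_mem (t : ℝ) (k : ℕ) (j : Jk k) (m : ℕ) (h : k ≤ m) : uV.{u} 𝕜 t k j m ∈ spt.{u} 𝕜 t :=
  subset_closure (Submodule.subset_span ⟨k, j, m, h, rfl⟩)

/-- restriction to the part at infinity -/
noncomputable def qV : V2.{u} 𝕜 →L[𝕜] V.{u} 𝕜 :=
  LinearMap.mkContinuous
    { toFun := fun x => ⟨fun i => x (pt2 none i.down.1 i.down.2), memℓp_infty (by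
        refine ⟨‖x‖, ?_⟩
        rintro _ ⟨i, rfl⟩
        exact lp.norm_apply_le_norm (by simp) x _)⟩
      map_add' := fun x y => rfl
      map_smul' := fun c x => rfl } 1 (by
    intro x
    rw [one_mul]
    refine lp.norm_le_of_forall_le (norm_nonneg _) (fun i => ?_)
    exact lp.norm_apply_le_norm (by simp) x _)

theorem qV_apply (x : V2.{u} 𝕜) (k : ℕ) (g : Gk k) :
    evl 𝕜 k g (qV 𝕜 x) = x (pt2 none k g) := rfl

theorem norm_qV_le (x : V2.{u} 𝕜) : ‖qV 𝕜 x‖ ≤ ‖x‖ := by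
  refine lp.norm_le_of_forall_le (norm_nonneg _) (fun i => ?_)
  exact lp.norm_apply_le_norm (by simp) x _

theorem V_ext (x y : V.{u} 𝕜) (h : ∀ (k : ℕ) (g : Gk k), evl 𝕜 k g x = evl 𝕜 k g y) : x = y := by
  apply lp.ext
  funext i
  exact h i.down.1 i.down.2

theorem V2_ext (x y : V2.{u} 𝕜)
    (h : ∀ (o : Option ℕ) (k : ℕ) (g : Gk k), x (pt2 o k g) = y (pt2 o k g)) : x = y := by
  apply lp.ext
  funext i
  exact h i.down.1 i.down.2.1 i.down.2.2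

theorem qV_uV (t : ℝ) (k : ℕ) (j : Jk k) (m : ℕ) : qV 𝕜 (uV.{u} 𝕜 t k j m) = eV 𝕜 k j := by
  apply V_ext
  intro k' g
  rw [qV_apply, uV_apply, evl_eV]
  rfl

theorem qV_mem (t : ℝ) (x : Xt.{u} 𝕜 t) : qV 𝕜 (x : V2.{u} 𝕜) ∈ spc.{u} 𝕜 := by
  have hx : (x : V2.{u} 𝕜) ∈ closure (Submodule.span 𝕜
      {x | ∃ (k : ℕ) (j : Jk k) (m : ℕ), k ≤ m ∧ x = uV.{u} 𝕜 t k j m} : Set (V2.{u} 𝕜)) := x.2
  have h1 : Set.MapsTo (qV 𝕜) (Submodule.span 𝕜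
      {x | ∃ (k : ℕ) (j : Jk k) (m : ℕ), k ≤ m ∧ x = uV.{u} 𝕜 t k j m} : Set (V2.{u} 𝕜))
      (spc.{u} 𝕜 : Set (V.{u} 𝕜)) := by
    intro y hy
    refine Submodule.span_induction (p := fun y _ => qV 𝕜 y ∈ spc.{u} 𝕜) ?_ ?_ ?_ ?_ hy
    · rintro _ ⟨k, j, m, _, rfl⟩
      rw [qV_uV]
      exact (eX 𝕜 k j).2
    · rw [map_zero]; exact Submodule.zero_mem _
    · intro a b _ _ ha hb
      rw [map_add]; exact Submodule.add_mem _ ha hb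
    · intro c a _ ha
      rw [map_smul]; exact Submodule.smul_mem _ _ ha
  have h2 := map_mem_closure (qV.{u} 𝕜).continuous hx h1
  have h3 : IsClosed (spc.{u} 𝕜 : Set (V.{u} 𝕜)) := Submodule.isClosed_topologicalClosure _
  rwa [h3.closure_eq] at h2

/-- the quotient map -/
noncomputable def q (t : ℝ) : Xt.{u} 𝕜 t →L[𝕜] X.{u} 𝕜 :=
  ((qV 𝕜).comp (spt.{u} 𝕜 t).subtypeL).codRestrict (spc.{u} 𝕜) (fun x => qV_mem 𝕜 t x)

theorem q_coe (t : ℝ) (x : Xt.{u} 𝕜 t) : (q 𝕜 t x : V.{u} 𝕜) = qV 𝕜 (x : V2.{u} 𝕜) := rfl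

theorem norm_q_le (t : ℝ) (x : Xt.{u} 𝕜 t) : ‖q 𝕜 t x‖ ≤ ‖x‖ := norm_qV_le 𝕜 _

/-- generators as elements of the space -/
noncomputable def uX (t : ℝ) (k : ℕ) (j : Jk k) (m : ℕ) (h : k ≤ m) : Xt.{u} 𝕜 t :=
  ⟨uV 𝕜 t k j m, uV_mem 𝕜 t k j m h⟩

theorem q_uX (t : ℝ) (k : ℕ) (j : Jk k) (m : ℕ) (h : k ≤ m) :
    q 𝕜 t (uX.{u} 𝕜 t k j m h) = eX 𝕜 k j := by
  apply Subtype.ext
  exact qV_uV 𝕜 t k j m

theorem norm_le_V2 (x : V2.{u} 𝕜) (C : ℝ) (hC : 0 ≤ C)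
    (h : ∀ (o : Option ℕ) (k : ℕ) (g : Gk k), ‖x (pt2 o k g)‖ ≤ C) : ‖x‖ ≤ C :=
  lp.norm_le_of_forall_le hC (fun i => h i.down.1 i.down.2.1 i.down.2.2)

/-- lift of `ψ k g` starting at `m` -/
noncomputable def zX (t : ℝ) (k : ℕ) (g : Gk (k + 1)) (m : ℕ) (h : k + 1 ≤ m) : Xt.{u} 𝕜 t :=
  (((cJ (k + 1))⁻¹ : ℝ) : 𝕜) •
      ∑ j : Jk (k + 1), ((Bv (k + 1) j g : ℝ) : 𝕜) • uX 𝕜 t (k + 1) j m h -
    (((cJ k)⁻¹ : ℝ) : 𝕜) • ∑ j : Jk k, ((Av k j g : ℝ) : 𝕜) • uX 𝕜 t k j m ((Nat.le_succ k).trans h)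

theorem q_zX (t : ℝ) (k : ℕ) (g : Gk (k + 1)) (m : ℕ) (h : k + 1 ≤ m) :
    q 𝕜 t (zX.{u} 𝕜 t k g m h) = psi 𝕜 k g := by
  unfold zX psi
  rw [map_sub, map_smul, map_smul, map_sum, map_sum]
  simp only [map_smul, q_uX]

theorem zX_apply (t : ℝ) (k : ℕ) (g : Gk (k + 1)) (m : ℕ) (h : k + 1 ≤ m) (o : Option ℕ)
    (k' : ℕ) (g' : Gk k') : (zX.{u} 𝕜 t k g m h : V2.{u} 𝕜) (pt2 o k' g') =
      (((match o with
        | none => psr k g k' g'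
        | some n => if m ≤ n then t * psr k g k' g' else 0) : ℝ) : 𝕜) := by
  have h1 : (zX.{u} 𝕜 t k g m h : V2.{u} 𝕜) (pt2 o k' g') =
      (((cJ (k + 1))⁻¹ : ℝ) : 𝕜) * ∑ j : Jk (k + 1), ((Bv (k + 1) j g : ℝ) : 𝕜) *
        ((ur t (k + 1) j m o k' g' : ℝ) : 𝕜) -
      (((cJ k)⁻¹ : ℝ) : 𝕜) * ∑ j : Jk k, ((Av k j g : ℝ) : 𝕜) * ((ur t k j m o k' g' : ℝ) : 𝕜) := by
    obtain ⟨E, hE⟩ : ∃ E : V2.{u} 𝕜 →L[𝕜] 𝕜, E = lp.evalCLM 𝕜 (fun _ : Idx2.{u} => 𝕜) ∞ (pt2 o k' g') :=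
      ⟨_, rfl⟩
    have h2 : ∀ x : V2.{u} 𝕜, x (pt2 o k' g') = E x := by
      intro x; rw [hE]; rfl
    have h3 : ∀ (k : ℕ) (j : Jk k), E (uV.{u} 𝕜 t k j m) = ((ur t k j m o k' g' : ℝ) : 𝕜) := by
      intro k j
      rw [← h2]; rfl
    rw [h2]
    unfold zX
    rw [Submodule.coe_sub, Submodule.coe_smul, Submodule.coe_smul, Submodule.coe_sum,
      Submodule.coe_sum, map_sub, map_smul, map_smul, map_sum, map_sum]
    simp only [Submodule.coe_smul, map_smul, smul_eq_mul]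
    unfold uX
    simp only [h3]
  rw [h1]
  rcases o with _ | n
  · simp only [ur, psr]
    push_cast
    rw [div_eq_inv_mul, div_eq_inv_mul]
  · by_cases hmn : m ≤ n
    · simp only [ur, psr, if_pos hmn]
      push_cast
      rw [div_eq_inv_mul, div_eq_inv_mul, mul_sub]
      simp only [Finset.mul_sum]
      congr 1
      · refine Finset.sum_congr rfl (fun j _ => ?_)
        ring
      · refine Finset.sum_congr rfl (fun j _ => ?_)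
        ring
    · simp only [ur, if_neg hmn]
      simp

theorem norm_uX_le (t : ℝ) (ht0 : 0 ≤ t) (ht1 : t ≤ 1) (k : ℕ) (j : Jk k) (m : ℕ) (h : k ≤ m) :
    ‖uX.{u} 𝕜 t k j m h‖ ≤ 1 := by
  refine norm_le_V2 𝕜 (uV.{u} 𝕜 t k j m) 1 zero_le_one (fun o k' g => ?_)
  rw [uV_apply, RCLike.norm_ofReal]
  refine (abs_ur t k j m o k' g).trans ?_
  rw [abs_of_nonneg ht0]
  exact max_le le_rfl ht1

theorem norm_uX_sub_le (t : ℝ) (ht0 : 0 ≤ t) (k : ℕ) (j : Jk k) (m N : ℕ)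
    (h : k ≤ m) (h' : m ≤ N) :
    ‖uX.{u} 𝕜 t k j m h - uX.{u} 𝕜 t k j N (h.trans h')‖ ≤ t := by
  refine norm_le_V2 𝕜 (uV.{u} 𝕜 t k j m - uV.{u} 𝕜 t k j N) t ht0 (fun o k' g => ?_)
  have h1 : (uV.{u} 𝕜 t k j m - uV.{u} 𝕜 t k j N) (pt2 o k' g) =
      (((ur t k j m o k' g - ur t k j N o k' g : ℝ)) : 𝕜) := by
    push_cast; rfl
  rw [h1, RCLike.norm_ofReal]
  rcases o with _ | n
  · simp only [ur, sub_self, abs_zero]
    exact ht0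
  · have h2 : |t * er k j k' g| ≤ t := by
      rw [abs_mul, abs_of_nonneg ht0]
      calc t * |er k j k' g| ≤ t * 1 := mul_le_mul_of_nonneg_left (abs_er k j k' g) ht0
        _ = t := mul_one _
    simp only [ur]
    by_cases hN : N ≤ n
    · rw [if_pos (h'.trans hN), if_pos hN, sub_self, abs_zero]
      exact ht0
    · rw [if_neg hN, sub_zero]
      split_ifs
      · exact h2
      · rw [abs_zero]; exact ht0

theorem norm_zX_le (t : ℝ) (ht0 : 0 ≤ t) (ht1 : t ≤ 1) (k : ℕ) (g : Gk (k + 1)) (m : ℕ)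
    (h : k + 1 ≤ m) : ‖zX.{u} 𝕜 t k g m h‖ ≤ eps k + eps (k + 1) := by
  have e0 : 0 ≤ eps k + eps (k + 1) := add_nonneg (eps_nonneg k) (eps_nonneg (k + 1))
  refine norm_le_V2 𝕜 (zX.{u} 𝕜 t k g m h : V2.{u} 𝕜) _ e0 (fun o k' g' => ?_)
  rw [zX_apply, RCLike.norm_ofReal]
  have h1 := abs_psr k g k' g'
  rcases o with _ | n
  · exact h1
  · show |if m ≤ n then t * psr k g k' g' else 0| ≤ _
    split_ifs
    · rw [abs_mul, abs_of_nonneg ht0]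
      calc t * |psr k g k' g'| ≤ 1 * |psr k g k' g'| :=
            mul_le_mul_of_nonneg_right ht1 (abs_nonneg _)
        _ = |psr k g k' g'| := one_mul _
        _ ≤ _ := h1
    · rw [abs_zero]; exact e0

theorem norm_zX_sub_le (t : ℝ) (ht0 : 0 ≤ t) (k : ℕ) (g : Gk (k + 1)) (m N : ℕ)
    (h : k + 1 ≤ m) (h' : m ≤ N) :
    ‖zX.{u} 𝕜 t k g m h - zX.{u} 𝕜 t k g N (h.trans h')‖ ≤ t * (eps k + eps (k + 1)) := by
  have e0 : 0 ≤ eps k + eps (k + 1) := add_nonneg (eps_nonneg k) (eps_nonneg (k + 1))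
  have e1 : 0 ≤ t * (eps k + eps (k + 1)) := mul_nonneg ht0 e0
  refine norm_le_V2 𝕜 ((zX.{u} 𝕜 t k g m h : V2.{u} 𝕜) - (zX.{u} 𝕜 t k g N (h.trans h') : V2.{u} 𝕜))
    _ e1 (fun o k' g' => ?_)
  have h0 : ((zX.{u} 𝕜 t k g m h : V2.{u} 𝕜) - (zX.{u} 𝕜 t k g N (h.trans h') : V2.{u} 𝕜))
      (pt2 o k' g') = (zX.{u} 𝕜 t k g m h : V2.{u} 𝕜) (pt2 o k' g') -
        (zX.{u} 𝕜 t k g N (h.trans h') : V2.{u} 𝕜) (pt2 o k' g') := rfl
  rw [h0, zX_apply, zX_apply]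
  have h1 := abs_psr k g k' g'
  have h2 : |t * psr k g k' g'| ≤ t * (eps k + eps (k + 1)) := by
    rw [abs_mul, abs_of_nonneg ht0]
    exact mul_le_mul_of_nonneg_left h1 ht0
  rcases o with _ | n
  · simp only [sub_self, norm_zero]
    exact e1
  · rw [← RCLike.ofReal_sub, RCLike.norm_ofReal]
    show |(if m ≤ n then t * psr k g k' g' else 0) - (if N ≤ n then t * psr k g k' g' else 0)| ≤ _
    by_cases hN : N ≤ n
    · rw [if_pos (h'.trans hN), if_pos hN, sub_self, abs_zero]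
      exact e1
    · rw [if_neg hN, sub_zero]
      split_ifs
      · exact h2
      · rw [abs_zero]; exact e1

/-- telescoping step in general form -/
theorem step_gen (k : ℕ) (s : Jk k → X.{u} 𝕜) (s' : Jk (k + 1) → X.{u} 𝕜) :
    (((cJ (k + 1))⁻¹ : ℝ) : 𝕜) * ∑ j : Jk (k + 1), alA 𝕜 (k + 1) j (s' j : V.{u} 𝕜) -
    (((cJ k)⁻¹ : ℝ) : 𝕜) * ∑ j : Jk k, alA 𝕜 k j (s j : V.{u} 𝕜) = (((cG (k + 1))⁻¹ : ℝ) : 𝕜) *
      ∑ g : Gk (k + 1), evl 𝕜 (k + 1) g (((((cJ (k + 1))⁻¹ : ℝ) : 𝕜) •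
      ∑ j : Jk (k + 1), ((Bv (k + 1) j g : ℝ) : 𝕜) • s' j -
    (((cJ k)⁻¹ : ℝ) : 𝕜) • ∑ j : Jk k, ((Av k j g : ℝ) : 𝕜) • s j : X.{u} 𝕜) : V.{u} 𝕜) := by
  have h1 : (((cJ (k + 1))⁻¹ : ℝ) : 𝕜) * ∑ j : Jk (k + 1), alA 𝕜 (k + 1) j (s' j : V.{u} 𝕜) =
      (((cG (k + 1))⁻¹ : ℝ) : 𝕜) * ∑ g : Gk (k + 1),
      (((cJ (k + 1))⁻¹ : ℝ) : 𝕜) * ∑ j : Jk (k + 1), ((Bv (k + 1) j g : ℝ) : 𝕜) *
        evl 𝕜 (k + 1) g (s' j : V.{u} 𝕜) := by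
    simp only [al_eq, alB_apply]
    rw [← Finset.mul_sum, ← Finset.mul_sum, Finset.sum_comm]
    ring
  have h2 : (((cJ k)⁻¹ : ℝ) : 𝕜) * ∑ j : Jk k, alA 𝕜 k j (s j : V.{u} 𝕜) =
      (((cG (k + 1))⁻¹ : ℝ) : 𝕜) * ∑ g : Gk (k + 1),
      (((cJ k)⁻¹ : ℝ) : 𝕜) * ∑ j : Jk k, ((Av k j g : ℝ) : 𝕜) *
        evl 𝕜 (k + 1) g (s j : V.{u} 𝕜) := by
    simp only [alA_apply]
    rw [← Finset.mul_sum, ← Finset.mul_sum, Finset.sum_comm]
    ring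
  have h3 : ∀ g : Gk (k + 1), evl 𝕜 (k + 1) g (((((cJ (k + 1))⁻¹ : ℝ) : 𝕜) •
      ∑ j : Jk (k + 1), ((Bv (k + 1) j g : ℝ) : 𝕜) • s' j -
    (((cJ k)⁻¹ : ℝ) : 𝕜) • ∑ j : Jk k, ((Av k j g : ℝ) : 𝕜) • s j : X.{u} 𝕜) : V.{u} 𝕜) =
      (((cJ (k + 1))⁻¹ : ℝ) : 𝕜) * ∑ j : Jk (k + 1), ((Bv (k + 1) j g : ℝ) : 𝕜) *
        evl 𝕜 (k + 1) g (s' j : V.{u} 𝕜) -
      (((cJ k)⁻¹ : ℝ) : 𝕜) * ∑ j : Jk k, ((Av k j g : ℝ) : 𝕜) *
        evl 𝕜 (k + 1) g (s j : V.{u} 𝕜) := by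
    intro g
    rw [Submodule.coe_sub, Submodule.coe_smul,
      Submodule.coe_smul, Submodule.coe_sum, Submodule.coe_sum, map_sub, map_smul, map_smul,
      map_sum, map_sum]
    simp only [map_smul, Submodule.coe_smul, smul_eq_mul]
  rw [h1, h2, ← mul_sub, ← Finset.sum_sub_distrib]
  simp only [h3]

/-- average of the coefficients at level `k` -/
noncomputable def avJ (k : ℕ) (s : Jk k → X.{u} 𝕜) : 𝕜 :=
  (((cJ k)⁻¹ : ℝ) : 𝕜) * ∑ j : Jk k, alA 𝕜 k j (s j : V.{u} 𝕜)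

/-- average of the diagonal values at level `k + 1` -/
noncomputable def avG (k : ℕ) (s : Gk (k + 1) → X.{u} 𝕜) : 𝕜 :=
  (((cG (k + 1))⁻¹ : ℝ) : 𝕜) * ∑ g : Gk (k + 1), evl 𝕜 (k + 1) g (s g : V.{u} 𝕜)

theorem avJ_sub (k : ℕ) (s s' : Jk k → X.{u} 𝕜) :
    avJ 𝕜 k (fun j => s j - s' j) = avJ 𝕜 k s - avJ 𝕜 k s' := by
  unfold avJ
  rw [← mul_sub, ← Finset.sum_sub_distrib]
  congr 1
  refine Finset.sum_congr rfl (fun j _ => ?_)
  rw [Submodule.coe_sub, map_sub]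

theorem avG_sub (k : ℕ) (s s' : Gk (k + 1) → X.{u} 𝕜) :
    avG 𝕜 k (fun j => s j - s' j) = avG 𝕜 k s - avG 𝕜 k s' := by
  unfold avG
  rw [← mul_sub, ← Finset.sum_sub_distrib]
  refine congrArg _ (Finset.sum_congr rfl (fun j _ => ?_))
  rw [Submodule.coe_sub, map_sub]

theorem norm_avJ (k : ℕ) (s : Jk k → X.{u} 𝕜) (M : ℝ)
    (h : ∀ (j : Jk k) (g : Gk (k + 1)), ‖evl 𝕜 (k + 1) g (s j : V.{u} 𝕜)‖ ≤ M) :
    ‖avJ 𝕜 k s‖ ≤ M := by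
  unfold avJ
  exact norm_avg 𝕜 _ (cJ_pos _) (sum_one_J _) _ M (fun j => norm_alA_le 𝕜 k j _ M (h j))

theorem norm_avG (k : ℕ) (s : Gk (k + 1) → X.{u} 𝕜) (M : ℝ)
    (h : ∀ (g : Gk (k + 1)), ‖evl 𝕜 (k + 1) g (s g : V.{u} 𝕜)‖ ≤ M) :
    ‖avG 𝕜 k s‖ ≤ M := by
  unfold avG
  exact norm_avg 𝕜 _ (cG_pos _) (sum_one_G _) _ M h

/-- total lifts -/
noncomputable def uT (t : ℝ) (k : ℕ) (j : Jk k) (m : ℕ) : Xt.{u} 𝕜 t :=
  if h : k ≤ m then uX 𝕜 t k j m h else 0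

/-- total lifts -/
noncomputable def zT (t : ℝ) (k : ℕ) (g : Gk (k + 1)) (m : ℕ) : Xt.{u} 𝕜 t :=
  if h : k + 1 ≤ m then zX 𝕜 t k g m h else 0

theorem tele (t : ℝ) (S : Xt.{u} 𝕜 t →L[𝕜] Xt.{u} 𝕜 t) (N K : ℕ) (hK : K ≤ N) :
    avJ 𝕜 0 (fun j => q 𝕜 t (S (uT 𝕜 t 0 j N))) +
      ∑ k ∈ Finset.range K, avG 𝕜 k (fun g => q 𝕜 t (S (zT 𝕜 t k g N))) =
    avJ 𝕜 K (fun j => q 𝕜 t (S (uT 𝕜 t K j N))) := by
  induction K with
  | zero => simp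
  | succ K ih =>
    rw [Finset.sum_range_succ, ← add_assoc, ih (by omega)]
    have h1 : avG 𝕜 K (fun g => q 𝕜 t (S (zT 𝕜 t K g N))) =
        avJ 𝕜 (K + 1) (fun j => q 𝕜 t (S (uT 𝕜 t (K + 1) j N))) -
        avJ 𝕜 K (fun j => q 𝕜 t (S (uT 𝕜 t K j N))) := by
      unfold avJ
      rw [step_gen]
      unfold avG
      congr 1
      refine Finset.sum_congr rfl (fun g _ => ?_)
      congr 2
      have h0 : zT.{u} 𝕜 t K g N = zX 𝕜 t K g N hK := by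
        unfold zT
        rw [dif_pos hK]
      show q 𝕜 t (S (zT 𝕜 t K g N)) = _
      rw [h0]
      unfold zX
      rw [map_sub, map_smul, map_smul, map_sum, map_sum, map_sub, map_smul, map_smul, map_sum,
        map_sum]
      simp only [map_smul]
      have h2 : ∀ j : Jk (K + 1), uT.{u} 𝕜 t (K + 1) j N = uX 𝕜 t (K + 1) j N hK := by
        intro j
        unfold uT
        rw [dif_pos hK]
      have h3 : ∀ j : Jk K, uT.{u} 𝕜 t K j N = uX 𝕜 t K j N ((Nat.le_succ K).trans hK) := by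
        intro j
        unfold uT
        rw [dif_pos ((Nat.le_succ K).trans hK)]
      simp only [h2, h3]
    rw [h1]
    ring

end Pool.Agent.Helper38.Davie
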