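import Mathlib
import Pool.Agent.Helper38.DavieBAP

/-!
Main estimate for the spaces `Xt`, and their bounded approximation property.
-/

set_option autoImplicit false

namespace Pool.Agent.Helper38.Davie

open Finset Filter Topology
open scoped ENNReal

universe u

variable (𝕜 : Type) [RCLike 𝕜]

theorem norm_le_V (x : V.{u} 𝕜) (C : ℝ) (hC : 0 ≤ C)
    (h : ∀ (k : ℕ) (g : Gk k), ‖evl 𝕜 k g x‖ ≤ C) : ‖x‖ ≤ C :=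
  lp.norm_le_of_forall_le hC (fun i => h i.down.1 i.down.2)

/-- multiplication by a bounded weight depending on the level only -/
noncomputable def wt (w : ℕ → ℝ) (hw : ∀ k, |w k| ≤ 1) : V.{u} 𝕜 →L[𝕜] V.{u} 𝕜 :=
  LinearMap.mkContinuous
    { toFun := fun x => ⟨fun i => ((w i.down.1 : ℝ) : 𝕜) * x i, memℓp_infty (by
        refine ⟨‖x‖, ?_⟩
        rintro _ ⟨i, rfl⟩
        simp only [norm_mul, RCLike.norm_ofReal]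
        calc |w i.down.1| * ‖x i‖ ≤ 1 * ‖x‖ :=
              mul_le_mul (hw _) (lp.norm_apply_le_norm (by simp) x _) (norm_nonneg _) zero_le_one
          _ = ‖x‖ := one_mul _)⟩
      map_add' := fun x y => by
        apply lp.ext
        funext i
        exact mul_add _ _ _
      map_smul' := fun c x => by
        apply lp.ext
        funext i
        show ((w i.down.1 : ℝ) : 𝕜) * (c * x i) = c * (((w i.down.1 : ℝ) : 𝕜) * x i)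
        ring } 1 (by
    intro x
    rw [one_mul]
    refine lp.norm_le_of_forall_le (norm_nonneg _) (fun i => ?_)
    show ‖((w i.down.1 : ℝ) : 𝕜) * x i‖ ≤ ‖x‖
    rw [norm_mul, RCLike.norm_ofReal]
    calc |w i.down.1| * ‖x i‖ ≤ 1 * ‖x‖ :=
          mul_le_mul (hw _) (lp.norm_apply_le_norm (by simp) x _) (norm_nonneg _) zero_le_one
      _ = ‖x‖ := one_mul _)

theorem evl_wt (w : ℕ → ℝ) (hw : ∀ k, |w k| ≤ 1) (x : V.{u} 𝕜) (k : ℕ) (g : Gk k) :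
    evl 𝕜 k g (wt 𝕜 w hw x) = ((w k : ℝ) : 𝕜) * evl 𝕜 k g x := rfl

/-- the weights `2^{-k}` -/
noncomputable def w0 (k : ℕ) : ℝ := (1 / 2) ^ k

theorem w0_pos (k : ℕ) : 0 < w0 k := by unfold w0; positivity

theorem w0_le (k : ℕ) : w0 k ≤ 1 := by
  unfold w0
  exact pow_le_one₀ (by norm_num) (by norm_num)

theorem abs_w0 (k : ℕ) : |w0 k| ≤ 1 := by
  rw [abs_of_pos (w0_pos k)]; exact w0_le k

/-- truncated weights -/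
noncomputable def wn (n k : ℕ) : ℝ := if k < n then w0 k else 0

theorem abs_wn (n k : ℕ) : |wn n k| ≤ 1 := by
  unfold wn
  split_ifs
  · exact abs_w0 k
  · rw [abs_zero]; norm_num

/-- the diagonal operator -/
noncomputable def Dg : V.{u} 𝕜 →L[𝕜] V.{u} 𝕜 := wt 𝕜 w0 abs_w0

/-- truncated diagonal operator -/
noncomputable def Dn (n : ℕ) : V.{u} 𝕜 →L[𝕜] V.{u} 𝕜 := wt 𝕜 (wn n) (abs_wn n)

theorem norm_Dg_le (x : V.{u} 𝕜) : ‖Dg 𝕜 x‖ ≤ ‖x‖ := by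
  refine norm_le_V 𝕜 _ _ (norm_nonneg _) (fun k g => ?_)
  unfold Dg
  rw [evl_wt, norm_mul, RCLike.norm_ofReal]
  calc |w0 k| * ‖evl 𝕜 k g x‖ ≤ 1 * ‖x‖ :=
        mul_le_mul (abs_w0 k) (norm_evl_le 𝕜 k g x) (norm_nonneg _) zero_le_one
    _ = ‖x‖ := one_mul _

theorem norm_Dg_sub_le (n : ℕ) (x : V.{u} 𝕜) : ‖Dg 𝕜 x - Dn 𝕜 n x‖ ≤ (1 / 2) ^ n * ‖x‖ := by
  refine norm_le_V 𝕜 _ _ (by positivity) (fun k g => ?_)
  unfold Dg Dn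
  rw [map_sub, evl_wt, evl_wt, ← sub_mul, ← RCLike.ofReal_sub, norm_mul, RCLike.norm_ofReal]
  refine mul_le_mul ?_ (norm_evl_le 𝕜 k g x) (norm_nonneg _) (by positivity)
  unfold wn
  split_ifs with h
  · rw [sub_self, abs_zero]; positivity
  · rw [sub_zero, abs_of_pos (w0_pos k)]
    unfold w0
    exact pow_le_pow_of_le_one (by norm_num) (by norm_num) (by omega)

theorem finrank_Dn (n : ℕ) :
    FiniteDimensional 𝕜 (LinearMap.range (Dn.{u} 𝕜 n : V.{u} 𝕜 →ₗ[𝕜] V.{u} 𝕜)) := by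
  obtain ⟨E, hE⟩ : ∃ E : V.{u} 𝕜 →ₗ[𝕜] ((Σ k : Fin n, Gk (k : ℕ)) → 𝕜),
      E = LinearMap.pi (fun p => (evl 𝕜 (p.1 : ℕ) p.2 : V.{u} 𝕜 →ₗ[𝕜] 𝕜)) := ⟨_, rfl⟩
  refine FiniteDimensional.of_injective (E.comp (LinearMap.range
    (Dn.{u} 𝕜 n : V.{u} 𝕜 →ₗ[𝕜] V.{u} 𝕜)).subtype) ?_
  rw [injective_iff_map_eq_zero]
  rintro ⟨_, ⟨x, rfl⟩⟩ hx
  apply Subtype.ext
  apply V_ext
  intro k g
  show evl 𝕜 k g (Dn.{u} 𝕜 n x) = evl 𝕜 k g 0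
  rw [map_zero]
  by_cases hk : k < n
  · have h1 := congrFun hx ⟨⟨k, hk⟩, g⟩
    rw [hE] at h1
    exact h1
  · unfold Dn wn
    rw [evl_wt, if_neg hk]
    simp

/-- the approximable test operator -/
noncomputable def Tt (t : ℝ) : Xt.{u} 𝕜 t →L[𝕜] V.{u} 𝕜 :=
  (Dg 𝕜).comp ((spc.{u} 𝕜).subtypeL.comp (q 𝕜 t))

theorem Tt_apply (t : ℝ) (x : Xt.{u} 𝕜 t) : Tt 𝕜 t x = Dg 𝕜 (q 𝕜 t x : V.{u} 𝕜) := rfl

theorem norm_Tt_le (t : ℝ) (x : Xt.{u} 𝕜 t) : ‖Tt 𝕜 t x‖ ≤ ‖x‖ := by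
  rw [Tt_apply]
  exact (norm_Dg_le 𝕜 _).trans (norm_q_le 𝕜 t x)

theorem opnorm_Tt_le (t : ℝ) : ‖Tt.{u} 𝕜 t‖ ≤ 1 :=
  ContinuousLinearMap.opNorm_le_bound _ zero_le_one (fun x => by
    rw [one_mul]; exact norm_Tt_le 𝕜 t x)

/-- the test operator is a norm limit of finite rank operators -/
theorem Tt_approximable (t : ℝ) (ε : ℝ) (hε : 0 < ε) : ∃ F : Xt.{u} 𝕜 t →L[𝕜] V.{u} 𝕜,
    FiniteDimensional 𝕜 (LinearMap.range (F : Xt.{u} 𝕜 t →ₗ[𝕜] V.{u} 𝕜)) ∧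
      ‖Tt 𝕜 t - F‖ < ε := by
  obtain ⟨n, hn⟩ := exists_pow_lt_of_lt_one hε (by norm_num : (1 / 2 : ℝ) < 1)
  refine ⟨(Dn 𝕜 n).comp ((spc.{u} 𝕜).subtypeL.comp (q 𝕜 t)), ?_, ?_⟩
  · have h1 := finrank_Dn.{u} 𝕜 n
    refine Submodule.finiteDimensional_of_le (S₂ := LinearMap.range
      (Dn.{u} 𝕜 n : V.{u} 𝕜 →ₗ[𝕜] V.{u} 𝕜)) ?_
    rintro _ ⟨x, rfl⟩
    exact ⟨(q 𝕜 t x : V.{u} 𝕜), rfl⟩
  · refine lt_of_le_of_lt (ContinuousLinearMap.opNorm_le_bound _ (by positivity) (fun x => ?_)) hn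
    show ‖Dg 𝕜 (q 𝕜 t x : V.{u} 𝕜) - Dn 𝕜 n (q 𝕜 t x : V.{u} 𝕜)‖ ≤ _
    refine (norm_Dg_sub_le 𝕜 n _).trans ?_
    exact mul_le_mul_of_nonneg_left (norm_q_le 𝕜 t x) (by positivity)

theorem evl_le_T (t : ℝ) (S : Xt.{u} 𝕜 t →L[𝕜] Xt.{u} 𝕜 t) (x : Xt.{u} 𝕜 t) (k : ℕ) (g : Gk k) :
    ‖evl 𝕜 k g (q 𝕜 t (S x) : V.{u} 𝕜)‖ ≤ 2 ^ k * (‖(Tt 𝕜 t).comp S‖ * ‖x‖) := by
  have h1 : ‖Tt 𝕜 t (S x)‖ ≤ ‖(Tt 𝕜 t).comp S‖ * ‖x‖ := ((Tt 𝕜 t).comp S).le_opNorm x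
  have h2 := norm_evl_le.{u} 𝕜 k g (Tt 𝕜 t (S x))
  rw [Tt_apply] at h2
  unfold Dg at h2
  rw [evl_wt, norm_mul, RCLike.norm_ofReal, abs_of_pos (w0_pos k)] at h2
  have h3 : 2 ^ k * w0 k = 1 := by
    unfold w0
    rw [← mul_pow]; norm_num
  have h4 : (w0 k) * ‖evl 𝕜 k g (q 𝕜 t (S x) : V.{u} 𝕜)‖ ≤ ‖(Tt 𝕜 t).comp S‖ * ‖x‖ :=
    h2.trans h1
  calc ‖evl 𝕜 k g (q 𝕜 t (S x) : V.{u} 𝕜)‖
      = 2 ^ k * (w0 k * ‖evl 𝕜 k g (q 𝕜 t (S x) : V.{u} 𝕜)‖) := by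
        rw [← mul_assoc, h3, one_mul]
    _ ≤ _ := mul_le_mul_of_nonneg_left h4 (by positivity)

/-- the compact test set -/
noncomputable def Kt (t : ℝ) : Set (Xt.{u} 𝕜 t) :=
  insert 0 (Set.range (fun p : Σ k, Gk (k + 1) =>
    (((2 : ℝ) ^ p.1 : ℝ) : 𝕜) • zX.{u} 𝕜 t p.1 p.2 (p.1 + 1) le_rfl)) ∪
    Set.range (fun j : Jk 0 => uX.{u} 𝕜 t 0 j 0 le_rfl)

theorem isCompact_Kt (t : ℝ) (ht0 : 0 ≤ t) (ht1 : t ≤ 1) : IsCompact (Kt.{u} 𝕜 t) := by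
  refine IsCompact.union ?_ (Set.finite_range _).isCompact
  refine Filter.Tendsto.isCompact_insert_range_of_cofinite ?_
  rw [Metric.tendsto_nhds]
  intro ε hε
  rw [Filter.eventually_cofinite]
  have hlim : Tendsto (fun k : ℕ => 4 * ((1 : ℝ) / 2) ^ k) atTop (𝓝 (4 * 0)) :=
    (tendsto_pow_atTop_nhds_zero_of_lt_one (by norm_num) (by norm_num)).const_mul 4
  rw [mul_zero] at hlim
  obtain ⟨N, hN⟩ := Filter.eventually_atTop.1 (hlim.eventually (gt_mem_nhds hε))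
  have hfin : (⋃ k ∈ Finset.range N, Set.range (fun g : Gk (k + 1) =>
      (⟨k, g⟩ : Σ k, Gk (k + 1)))).Finite := by
    refine Set.Finite.biUnion (Finset.finite_toSet _) (fun k _ => Set.finite_range _)
  refine hfin.subset ?_
  rintro ⟨k, g⟩ hk
  by_contra hcon
  apply hk
  have hkN : N ≤ k := by
    by_contra hlt
    apply hcon
    simp only [Set.mem_iUnion]
    exact ⟨k, Finset.mem_range.2 (by omega), g, rfl⟩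
  rw [dist_zero_right, norm_smul, RCLike.norm_ofReal, abs_of_pos (by positivity)]
  have h1 := norm_zX_le.{u} 𝕜 t ht0 ht1 k g (k + 1) le_rfl
  have h2 := eps_le k
  have h3 := eps_le (k + 1)
  have h4 : (2 : ℝ) / 4 ^ (k + 1) ≤ 2 / 4 ^ k := by
    apply div_le_div_of_nonneg_left (by norm_num) (by positivity)
    exact pow_le_pow_right₀ (by norm_num) (by omega)
  have h5 : (2 : ℝ) ^ k * (4 / 4 ^ k) = 4 * (1 / 2) ^ k := by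
    have : (4 : ℝ) ^ k = 2 ^ k * 2 ^ k := by rw [← mul_pow]; norm_num
    rw [this, one_div, inv_pow]
    field_simp
  calc (2 : ℝ) ^ k * ‖zX.{u} 𝕜 t k g (k + 1) le_rfl‖ ≤ 2 ^ k * (4 / 4 ^ k) := by
        apply mul_le_mul_of_nonneg_left _ (by positivity)
        have h6 : (4 : ℝ) / 4 ^ k = 2 / 4 ^ k + 2 / 4 ^ k := by ring
        linarith
    _ = 4 * (1 / 2) ^ k := h5
    _ < ε := hN k hkN

/-- head functional -/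
noncomputable def bh (t : ℝ) (K : ℕ) (S : Xt.{u} 𝕜 t →L[𝕜] Xt.{u} 𝕜 t) : 𝕜 :=
  avJ 𝕜 0 (fun j => q 𝕜 t (S (uT 𝕜 t 0 j 0))) +
    ∑ k ∈ Finset.range K, avG 𝕜 k (fun g => q 𝕜 t (S (zT 𝕜 t k g (k + 1))))

theorem bh_sub (t : ℝ) (K : ℕ) (S T : Xt.{u} 𝕜 t →L[𝕜] Xt.{u} 𝕜 t) :
    bh 𝕜 t K (S - T) = bh 𝕜 t K S - bh 𝕜 t K T := by
  unfold bh
  have h1 : ∀ x, q 𝕜 t ((S - T) x) = q 𝕜 t (S x) - q 𝕜 t (T x) := by
    intro x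
    rw [_root_.sub_apply, map_sub]
  simp only [h1, avJ_sub, avG_sub, Finset.sum_sub_distrib]
  ring

theorem uT_eq (t : ℝ) (k : ℕ) (j : Jk k) (m : ℕ) (h : k ≤ m) :
    uT.{u} 𝕜 t k j m = uX 𝕜 t k j m h := by
  unfold uT
  rw [dif_pos h]

theorem zT_eq (t : ℝ) (k : ℕ) (g : Gk (k + 1)) (m : ℕ) (h : k + 1 ≤ m) :
    zT.{u} 𝕜 t k g m = zX 𝕜 t k g m h := by
  unfold zT
  rw [dif_pos h]

theorem bh_id (t : ℝ) (K : ℕ) : bh.{u} 𝕜 t K (ContinuousLinearMap.id 𝕜 _) = 1 := by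
  unfold bh
  have h1 : avJ.{u} 𝕜 0 (fun j => q 𝕜 t ((ContinuousLinearMap.id 𝕜 (Xt.{u} 𝕜 t))
      (uT 𝕜 t 0 j 0))) = 1 := by
    unfold avJ
    have h2 : ∀ j : Jk 0, alA 𝕜 0 j (q 𝕜 t ((ContinuousLinearMap.id 𝕜 (Xt.{u} 𝕜 t))
      (uT 𝕜 t 0 j 0)) : V.{u} 𝕜) = 1 := by
      intro j
      rw [ContinuousLinearMap.id_apply, uT_eq 𝕜 t 0 j 0 le_rfl, q_uX, alA_eX]
    simp only [h2]
    have h3 : (cJ 0)⁻¹ * ∑ _j : Jk 0, (1 : ℝ) = 1 := by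
      rw [sum_one_J]
      exact inv_mul_cancel₀ (cJ_pos _).ne'
    exact_mod_cast congrArg (fun r : ℝ => (r : 𝕜)) h3
  have h4 : ∀ k, avG.{u} 𝕜 k (fun g => q 𝕜 t ((ContinuousLinearMap.id 𝕜 (Xt.{u} 𝕜 t))
      (zT 𝕜 t k g (k + 1)))) = 0 := by
    intro k
    unfold avG
    have h5 : ∀ g : Gk (k + 1), evl 𝕜 (k + 1) g (q 𝕜 t ((ContinuousLinearMap.id 𝕜 (Xt.{u} 𝕜 t))
      (zT 𝕜 t k g (k + 1))) : V.{u} 𝕜) = 0 := by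
      intro g
      rw [ContinuousLinearMap.id_apply, zT_eq 𝕜 t k g (k + 1) le_rfl, q_zX, evl_psi]
      have h6 : psr k g (k + 1) g = 0 := by
        unfold psr
        have h3 : ∀ j : Jk k, er k j (k + 1) g = Av k j g := fun j => er_succ k j g
        have h4 : ∀ j : Jk (k + 1), er (k + 1) j (k + 1) g = Bv (k + 1) j g :=
          fun j => er_same (k + 1) j g
        simp only [h3, h4, Av_sq, Bv_sq, sum_one_J]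
        have h5 : cJ (k + 1) / cJ (k + 1) = 1 := div_self (cJ_pos (k + 1)).ne'
        have h6 : cJ k / cJ k = 1 := div_self (cJ_pos k).ne'
        rw [h5, h6, sub_self]
      rw [h6]; simp
    simp only [h5, Finset.sum_const_zero, mul_zero]
  rw [h1]
  simp only [h4, Finset.sum_const_zero, add_zero]

/-- truncated functional -/
noncomputable def bt (t : ℝ) (K : ℕ) (S : Xt.{u} 𝕜 t →L[𝕜] Xt.{u} 𝕜 t) : 𝕜 :=
  avJ 𝕜 0 (fun j => q 𝕜 t (S (uT 𝕜 t 0 j 0 - uT 𝕜 t 0 j K))) +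
    ∑ k ∈ Finset.range K, avG 𝕜 k (fun g => q 𝕜 t (S (zT 𝕜 t k g (k + 1) - zT 𝕜 t k g K)))

theorem bh_eq (t : ℝ) (K : ℕ) (S : Xt.{u} 𝕜 t →L[𝕜] Xt.{u} 𝕜 t) :
    bh 𝕜 t K S = bt 𝕜 t K S + avJ 𝕜 K (fun j => q 𝕜 t (S (uT 𝕜 t K j K))) := by
  rw [← tele 𝕜 t S K K le_rfl]
  unfold bh bt
  simp only [map_sub, avJ_sub, avG_sub, Finset.sum_sub_distrib]
  ring

theorem geom_half (K : ℕ) : ∑ k ∈ Finset.range K, (1 / 2 : ℝ) ^ k ≤ 2 := by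
  have h : ∀ K : ℕ, ∑ k ∈ Finset.range K, (1 / 2 : ℝ) ^ k = 2 - 2 * (1 / 2) ^ K := by
    intro K
    induction K with
    | zero => simp
    | succ n ih => rw [Finset.sum_range_succ, ih, pow_succ]; ring
  rw [h]
  have : (0 : ℝ) < (1 / 2) ^ K := by positivity
  linarith

theorem norm_bt_le (t : ℝ) (ht0 : 0 ≤ t) (K : ℕ) (S : Xt.{u} 𝕜 t →L[𝕜] Xt.{u} 𝕜 t) :
    ‖bt 𝕜 t K S‖ ≤ 18 * (t * ‖(Tt 𝕜 t).comp S‖) := by
  obtain ⟨M, hM⟩ : ∃ M : ℝ, M = ‖(Tt 𝕜 t).comp S‖ := ⟨_, rfl⟩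
  have hM0 : 0 ≤ M := by rw [hM]; exact norm_nonneg ((Tt 𝕜 t).comp S)
  have h1 : ‖avJ 𝕜 0 (fun j => q 𝕜 t (S (uT 𝕜 t 0 j 0 - uT 𝕜 t 0 j K)))‖ ≤ 2 * (M * t) := by
    refine norm_avJ 𝕜 0 _ _ (fun j g => ?_)
    refine (evl_le_T 𝕜 t S _ (0 + 1) g).trans ?_
    rw [← hM, uT_eq 𝕜 t 0 j 0 le_rfl, uT_eq 𝕜 t 0 j K (Nat.zero_le K)]
    have h2 := norm_uX_sub_le.{u} 𝕜 t ht0 0 j 0 K le_rfl (Nat.zero_le K)
    have h3 : M * ‖uX.{u} 𝕜 t 0 j 0 le_rfl - uX 𝕜 t 0 j K (Nat.zero_le K)‖ ≤ M * t :=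
      mul_le_mul_of_nonneg_left h2 hM0
    norm_num
    exact h3
  have h2 : ∀ k ∈ Finset.range K,
      ‖avG 𝕜 k (fun g => q 𝕜 t (S (zT 𝕜 t k g (k + 1) - zT 𝕜 t k g K)))‖ ≤
        8 * (M * t) * (1 / 2) ^ k := by
    intro k hk
    rw [Finset.mem_range] at hk
    refine norm_avG 𝕜 k _ _ (fun g => ?_)
    refine (evl_le_T 𝕜 t S _ (k + 1) g).trans ?_
    rw [← hM, zT_eq 𝕜 t k g (k + 1) le_rfl, zT_eq 𝕜 t k g K hk]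
    have h3 := norm_zX_sub_le.{u} 𝕜 t ht0 k g (k + 1) K le_rfl hk
    have h4 := eps_le k
    have h5 := eps_le (k + 1)
    have h6 : (2 : ℝ) / 4 ^ (k + 1) ≤ 2 / 4 ^ k := by
      apply div_le_div_of_nonneg_left (by norm_num) (by positivity)
      exact pow_le_pow_right₀ (by norm_num) (by omega)
    have h7 : eps k + eps (k + 1) ≤ 4 / 4 ^ k := by
      have h8 : (4 : ℝ) / 4 ^ k = 2 / 4 ^ k + 2 / 4 ^ k := by ring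
      linarith
    have h9 : ‖zX.{u} 𝕜 t k g (k + 1) le_rfl - zX 𝕜 t k g K hk‖ ≤ t * (4 / 4 ^ k) :=
      h3.trans (mul_le_mul_of_nonneg_left h7 ht0)
    have h10 : (2 : ℝ) ^ (k + 1) * (M * (t * (4 / 4 ^ k))) = 8 * (M * t) * (1 / 2) ^ k := by
      have : (4 : ℝ) ^ k = 2 ^ k * 2 ^ k := by rw [← mul_pow]; norm_num
      rw [this, one_div, inv_pow, pow_succ]
      field_simp
      ring
    rw [← h10]
    exact mul_le_mul_of_nonneg_left (mul_le_mul_of_nonneg_left h9 hM0) (by positivity)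
  unfold bt
  calc _ ≤ 2 * (M * t) + ∑ k ∈ Finset.range K, 8 * (M * t) * (1 / 2) ^ k :=
        (norm_add_le _ _).trans (add_le_add h1 ((norm_sum_le _ _).trans (Finset.sum_le_sum h2)))
    _ ≤ 2 * (M * t) + 8 * (M * t) * 2 := by
        rw [← Finset.mul_sum]
        have := mul_le_mul_of_nonneg_left (geom_half K)
          (by positivity : (0 : ℝ) ≤ 8 * (M * t))
        linarith
    _ = 18 * (t * M) := by ring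
    _ = _ := by rw [hM]

theorem norm_bh_le (t : ℝ) (K : ℕ) (R : Xt.{u} 𝕜 t →L[𝕜] Xt.{u} 𝕜 t) (δ : ℝ)
    (hR : ∀ x ∈ Kt.{u} 𝕜 t, ‖R x‖ ≤ δ) : ‖bh 𝕜 t K R‖ ≤ 3 * δ := by
  have hδ : 0 ≤ δ := (norm_nonneg _).trans (hR 0 (Or.inl (Or.inl rfl)))
  have h1 : ‖avJ 𝕜 0 (fun j => q 𝕜 t (R (uT 𝕜 t 0 j 0)))‖ ≤ δ := by
    refine norm_avJ 𝕜 0 _ _ (fun j g => ?_)
    rw [uT_eq 𝕜 t 0 j 0 le_rfl]
    refine (norm_evl_le 𝕜 _ _ _).trans ((norm_q_le 𝕜 t _).trans (hR _ (Or.inr ⟨j, rfl⟩)))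
  have h2 : ∀ k ∈ Finset.range K,
      ‖avG 𝕜 k (fun g => q 𝕜 t (R (zT 𝕜 t k g (k + 1))))‖ ≤ δ * (1 / 2) ^ k := by
    intro k _
    refine norm_avG 𝕜 k _ _ (fun g => ?_)
    rw [zT_eq 𝕜 t k g (k + 1) le_rfl]
    refine (norm_evl_le 𝕜 _ _ _).trans ((norm_q_le 𝕜 t _).trans ?_)
    have h1 := hR _ (Or.inl (Or.inr ⟨⟨k, g⟩, rfl⟩))
    rw [map_smul, norm_smul, RCLike.norm_ofReal, abs_of_pos (by positivity)] at h1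
    have h2 : (0 : ℝ) < 2 ^ k := by positivity
    rw [one_div_pow, ← div_eq_mul_one_div, le_div_iff₀ h2, mul_comm]
    exact h1
  unfold bh
  calc _ ≤ δ + ∑ k ∈ Finset.range K, δ * (1 / 2) ^ k :=
        (norm_add_le _ _).trans (add_le_add h1 ((norm_sum_le _ _).trans (Finset.sum_le_sum h2)))
    _ ≤ δ + δ * 2 := by
        rw [← Finset.mul_sum]
        have := mul_le_mul_of_nonneg_left (geom_half K) hδ
        linarith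
    _ = 3 * δ := by ring

theorem avJ_finrank (t : ℝ) (ht0 : 0 ≤ t) (ht1 : t ≤ 1) (S : Xt.{u} 𝕜 t →L[𝕜] Xt.{u} 𝕜 t)
    (h : FiniteDimensional 𝕜 (LinearMap.range (S : Xt.{u} 𝕜 t →ₗ[𝕜] Xt.{u} 𝕜 t)))
    (ε : ℝ) (hε : 0 < ε) :
    ∃ K, ‖avJ 𝕜 K (fun j => q 𝕜 t (S (uT 𝕜 t K j K)))‖ ≤ ε := by
  obtain ⟨n, φ, y, hS⟩ := finrank_decomp 𝕜 S h
  obtain ⟨C, hC0, hC⟩ : ∃ C : ℝ, 0 < C ∧ ∀ i, ‖φ i‖ ≤ C := by
    refine ⟨∑ i, ‖φ i‖ + 1, by positivity, fun i => ?_⟩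
    have := Finset.single_le_sum (f := fun i => ‖φ i‖) (fun i _ => norm_nonneg (φ i))
      (Finset.mem_univ i)
    linarith
  have hv : ∀ i : Fin n, ∃ N : ℕ, ∀ k, N ≤ k → ∀ g : Gk k,
      ‖evl 𝕜 k g (q 𝕜 t (y i) : V.{u} 𝕜)‖ ≤ ε / (C * (n + 1)) :=
    fun i => vanish 𝕜 (q 𝕜 t (y i)) _ (by positivity)
  choose N hN using hv
  obtain ⟨K, hK⟩ : ∃ K, ∀ i, N i ≤ K := ⟨∑ i, N i, fun i =>
    Finset.single_le_sum (f := N) (fun _ _ => Nat.zero_le _) (Finset.mem_univ i)⟩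
  refine ⟨K, norm_avJ 𝕜 K _ ε (fun j g => ?_)⟩
  rw [hS, map_sum, Submodule.coe_sum, map_sum]
  have h1 : ∀ i : Fin n, ‖evl 𝕜 (K + 1) g
      ((q 𝕜 t (φ i (uT 𝕜 t K j K) • y i) : X.{u} 𝕜) : V.{u} 𝕜)‖ ≤ ε / (n + 1) := by
    intro i
    rw [map_smul, Submodule.coe_smul, map_smul, norm_smul]
    have h2 : ‖φ i (uT 𝕜 t K j K)‖ ≤ C := by
      refine ((φ i).le_opNorm _).trans ?_
      rw [uT_eq 𝕜 t K j K le_rfl]
      have h3 := norm_uX_le.{u} 𝕜 t ht0 ht1 K j K le_rfl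
      have h4 := hC i
      calc ‖φ i‖ * ‖uX.{u} 𝕜 t K j K le_rfl‖ ≤ C * 1 :=
            mul_le_mul h4 h3 (norm_nonneg _) hC0.le
        _ = C := mul_one C
    have h3 := hN i (K + 1) ((hK i).trans (Nat.le_succ K)) g
    calc ‖φ i (uT 𝕜 t K j K)‖ * ‖evl 𝕜 (K + 1) g (q 𝕜 t (y i) : V.{u} 𝕜)‖ ≤
          C * (ε / (C * (n + 1))) :=
          mul_le_mul h2 h3 (norm_nonneg _) hC0.le
      _ = ε / (n + 1) := by field_simp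
  calc ‖∑ i, evl 𝕜 (K + 1) g ((q 𝕜 t (φ i (uT 𝕜 t K j K) • y i) : X.{u} 𝕜) : V.{u} 𝕜)‖
      ≤ ∑ _i : Fin n, ε / (n + 1) := (norm_sum_le _ _).trans (Finset.sum_le_sum (fun i _ => h1 i))
    _ = n * (ε / (n + 1)) := by simp
    _ ≤ ε := by
      rw [mul_div_assoc', div_le_iff₀ (by positivity)]
      nlinarith

/-- **Main estimate**: finite rank approximations of the identity of `Xt` are large against the
approximable operator `Tt`, which has norm at most one. -/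
theorem main_est (t : ℝ) (ht0 : 0 < t) (ht1 : t ≤ 1) (S : Xt.{u} 𝕜 t →L[𝕜] Xt.{u} 𝕜 t)
    (h : FiniteDimensional 𝕜 (LinearMap.range (S : Xt.{u} 𝕜 t →ₗ[𝕜] Xt.{u} 𝕜 t)))
    (hS : ∀ x ∈ Kt.{u} 𝕜 t, ‖S x - x‖ ≤ 1 / 12) :
    1 / 30 ≤ t * ‖(Tt 𝕜 t).comp S‖ := by
  obtain ⟨K, hK⟩ := avJ_finrank 𝕜 t ht0.le ht1 S h (1 / 8) (by norm_num)
  have h1 := norm_bt_le 𝕜 t ht0.le K S
  have h2 := norm_bh_le 𝕜 t K (S - ContinuousLinearMap.id 𝕜 _) (1 / 12) hS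
  rw [bh_sub, bh_id, bh_eq] at h2
  have h3 : (1 : 𝕜) = bt 𝕜 t K S + avJ 𝕜 K (fun j => q 𝕜 t (S (uT 𝕜 t K j K))) -
      (bt 𝕜 t K S + avJ 𝕜 K (fun j => q 𝕜 t (S (uT 𝕜 t K j K))) - 1) := by ring
  have h4 : (1 : ℝ) ≤ ‖bt 𝕜 t K S‖ + ‖avJ 𝕜 K (fun j => q 𝕜 t (S (uT 𝕜 t K j K)))‖ +
      ‖bt 𝕜 t K S + avJ 𝕜 K (fun j => q 𝕜 t (S (uT 𝕜 t K j K))) - 1‖ := by
    have h5 : ‖(1 : 𝕜)‖ = 1 := norm_one
    rw [← h5]
    conv_lhs => rw [h3]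
    exact (norm_sub_le _ _).trans (add_le_add_left (norm_add_le _ _) _)
  linarith

/-! ### The bounded approximation property of `Xt` -/

/-- source index of the `N`-th approximation -/
def srcI (N : ℕ) : Option ℕ → Option ℕ
  | none => some N
  | some n => some (min n N)

/-- weight of the `N`-th approximation -/
noncomputable def wP (t : ℝ) : Option ℕ → ℝ
  | none => t⁻¹
  | some _ => 1

theorem wP_le (t : ℝ) (ht0 : 0 < t) (ht1 : t ≤ 1) (o : Option ℕ) : |wP t o| ≤ t⁻¹ := by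
  have h1 : 1 ≤ t⁻¹ := (one_le_inv₀ ht0).2 ht1
  rcases o with _ | n
  · show |t⁻¹| ≤ _
    rw [abs_of_pos (inv_pos.2 ht0)]
  · show |(1 : ℝ)| ≤ _
    rw [abs_one]; exact h1

/-- the approximations on the big space -/
noncomputable def PV (t : ℝ) (ht0 : 0 < t) (ht1 : t ≤ 1) (N : ℕ) : V2.{u} 𝕜 →L[𝕜] V2.{u} 𝕜 :=
  LinearMap.mkContinuous
    { toFun := fun x => ⟨fun i => ((wP t i.down.1 : ℝ) : 𝕜) *
        x (ULift.up (srcI N i.down.1, i.down.2)), memℓp_infty (by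
        refine ⟨t⁻¹ * ‖x‖, ?_⟩
        rintro _ ⟨i, rfl⟩
        simp only [norm_mul, RCLike.norm_ofReal]
        exact mul_le_mul (wP_le t ht0 ht1 _) (lp.norm_apply_le_norm (by simp) x _) (norm_nonneg _)
          (inv_pos.2 ht0).le)⟩
      map_add' := fun x y => by
        apply lp.ext
        funext i
        exact mul_add _ _ _
      map_smul' := fun c x => by
        apply lp.ext
        funext i
        show ((wP t i.down.1 : ℝ) : 𝕜) * (c * x (ULift.up (srcI N i.down.1, i.down.2))) =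
          c * (((wP t i.down.1 : ℝ) : 𝕜) * x (ULift.up (srcI N i.down.1, i.down.2)))
        ring } t⁻¹ (by
    intro x
    refine lp.norm_le_of_forall_le (by positivity) (fun i => ?_)
    show ‖((wP t i.down.1 : ℝ) : 𝕜) * x (ULift.up (srcI N i.down.1, i.down.2))‖ ≤ t⁻¹ * ‖x‖
    rw [norm_mul, RCLike.norm_ofReal]
    exact mul_le_mul (wP_le t ht0 ht1 _) (lp.norm_apply_le_norm (by simp) x _) (norm_nonneg _)
      (inv_pos.2 ht0).le)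

theorem PV_apply (t : ℝ) (ht0 : 0 < t) (ht1 : t ≤ 1) (N : ℕ) (x : V2.{u} 𝕜) (o : Option ℕ)
    (k : ℕ) (g : Gk k) : (PV 𝕜 t ht0 ht1 N x) (pt2 o k g) =
      ((wP t o : ℝ) : 𝕜) * x (pt2 (srcI N o) k g) := rfl

theorem norm_PV_le (t : ℝ) (ht0 : 0 < t) (ht1 : t ≤ 1) (N : ℕ) (x : V2.{u} 𝕜) :
    ‖PV 𝕜 t ht0 ht1 N x‖ ≤ t⁻¹ * ‖x‖ := by
  have hx : 0 ≤ t⁻¹ * ‖x‖ := mul_nonneg (inv_pos.2 ht0).le (norm_nonneg _)
  refine norm_le_V2 𝕜 _ _ hx (fun o k g => ?_)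
  rw [PV_apply, norm_mul, RCLike.norm_ofReal]
  exact mul_le_mul (wP_le t ht0 ht1 _) (lp.norm_apply_le_norm (by simp) x _) (norm_nonneg _)
    (inv_pos.2 ht0).le

theorem PV_uV (t : ℝ) (ht0 : 0 < t) (ht1 : t ≤ 1) (N k : ℕ) (j : Jk k) (m : ℕ) :
    PV 𝕜 t ht0 ht1 N (uV.{u} 𝕜 t k j m) = if m ≤ N then uV.{u} 𝕜 t k j m else 0 := by
  apply V2_ext
  intro o k' g
  rw [PV_apply]
  by_cases h : m ≤ N
  · rw [if_pos h, uV_apply, uV_apply]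
    rcases o with _ | n
    · simp only [wP, srcI, ur, if_pos h]
      rw [← RCLike.ofReal_mul, ← mul_assoc, inv_mul_cancel₀ ht0.ne', one_mul]
    · simp only [wP, srcI, ur]
      by_cases h2 : m ≤ n
      · rw [if_pos h2, if_pos (le_min h2 h)]
        simp
      · rw [if_neg h2, if_neg (fun h3 => h2 (h3.trans (min_le_left _ _)))]
        simp
  · rw [if_neg h, uV_apply]
    rcases o with _ | n
    · simp only [wP, srcI, ur, if_neg h]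
      simp
    · simp only [wP, srcI, ur]
      rw [if_neg (fun h3 => h (h3.trans (min_le_right _ _)))]
      simp

theorem PV_span (t : ℝ) (ht0 : 0 < t) (ht1 : t ≤ 1) (N : ℕ) (y : V2.{u} 𝕜)
    (hy : y ∈ Submodule.span 𝕜
      {x | ∃ (k : ℕ) (j : Jk k) (m : ℕ), k ≤ m ∧ x = uV.{u} 𝕜 t k j m}) :
    PV 𝕜 t ht0 ht1 N y ∈ Submodule.span 𝕜
      {x | ∃ (k : ℕ) (j : Jk k) (m : ℕ), k ≤ m ∧ x = uV.{u} 𝕜 t k j m} := by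
  refine Submodule.span_induction (p := fun y _ => PV 𝕜 t ht0 ht1 N y ∈ Submodule.span 𝕜
      {x | ∃ (k : ℕ) (j : Jk k) (m : ℕ), k ≤ m ∧ x = uV.{u} 𝕜 t k j m}) ?_ ?_ ?_ ?_ hy
  · rintro _ ⟨k, j, m, hkm, rfl⟩
    rw [PV_uV]
    split_ifs
    · exact Submodule.subset_span ⟨k, j, m, hkm, rfl⟩
    · exact Submodule.zero_mem _
  · rw [map_zero]; exact Submodule.zero_mem _
  · intro a b _ _ ha hb
    rw [map_add]; exact Submodule.add_mem _ ha hb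
  · intro c a _ ha
    rw [map_smul]; exact Submodule.smul_mem _ _ ha

theorem PV_mem (t : ℝ) (ht0 : 0 < t) (ht1 : t ≤ 1) (N : ℕ) (x : Xt.{u} 𝕜 t) :
    PV 𝕜 t ht0 ht1 N (x : V2.{u} 𝕜) ∈ spt.{u} 𝕜 t :=
  map_mem_closure (PV.{u} 𝕜 t ht0 ht1 N).continuous x.2 (fun y hy => PV_span 𝕜 t ht0 ht1 N y hy)

/-- the approximations -/
noncomputable def PX (t : ℝ) (ht0 : 0 < t) (ht1 : t ≤ 1) (N : ℕ) :
    Xt.{u} 𝕜 t →L[𝕜] Xt.{u} 𝕜 t :=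
  ((PV 𝕜 t ht0 ht1 N).comp (spt.{u} 𝕜 t).subtypeL).codRestrict (spt.{u} 𝕜 t)
    (fun x => PV_mem 𝕜 t ht0 ht1 N x)

theorem norm_PX_le (t : ℝ) (ht0 : 0 < t) (ht1 : t ≤ 1) (N : ℕ) :
    ‖PX.{u} 𝕜 t ht0 ht1 N‖ ≤ t⁻¹ :=
  ContinuousLinearMap.opNorm_le_bound _ (inv_pos.2 ht0).le (fun x => norm_PV_le 𝕜 t ht0 ht1 N _)

theorem coord_zero (t : ℝ) (x : Xt.{u} 𝕜 t) (n k : ℕ) (g : Gk k) (h : n + 1 < k) :
    (x : V2.{u} 𝕜) (pt2 (some n) k g) = 0 := by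
  obtain ⟨E, hE⟩ : ∃ E : V2.{u} 𝕜 →L[𝕜] 𝕜,
    E = lp.evalCLM 𝕜 (fun _ : Idx2.{u} => 𝕜) ∞ (pt2 (some n) k g) := ⟨_, rfl⟩
  have h1 : Set.EqOn E (0 : V2.{u} 𝕜 →L[𝕜] 𝕜)
      {x | ∃ (k : ℕ) (j : Jk k) (m : ℕ), k ≤ m ∧ x = uV.{u} 𝕜 t k j m} := by
    rintro _ ⟨k', j, m, hkm, rfl⟩
    rw [hE]
    show ((ur t k' j m (some n) k g : ℝ) : 𝕜) = 0
    simp only [ur]
    split_ifs with hmn
    · rw [er_other k' j k (by omega) (by omega)]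
      simp
    · simp
  have h2 := ContinuousLinearMap.eqOn_closure_span h1 x.2
  rw [hE] at h2
  exact h2

/-- finitely many evaluations -/
noncomputable def Eev (t : ℝ) (N : ℕ) :
    Xt.{u} 𝕜 t →ₗ[𝕜] ((Fin (N + 1) × Σ k : Fin (N + 2), Gk (k : ℕ)) → 𝕜) where
  toFun x := fun p => (x : V2.{u} 𝕜) (pt2 (some (p.1 : ℕ)) (p.2.1 : ℕ) p.2.2)
  map_add' _ _ := rfl
  map_smul' _ _ := rfl

theorem PX_zero (t : ℝ) (ht0 : 0 < t) (ht1 : t ≤ 1) (N : ℕ) (x : Xt.{u} 𝕜 t)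
    (hx : Eev 𝕜 t N (PX 𝕜 t ht0 ht1 N x) = 0) : PX 𝕜 t ht0 ht1 N x = 0 := by
  have key : ∀ (n : ℕ), n ≤ N → ∀ (k : ℕ) (g : Gk k),
      (x : V2.{u} 𝕜) (pt2 (some n) k g) = 0 := by
    intro n hn k g
    by_cases hk : n + 1 < k
    · exact coord_zero 𝕜 t x n k g hk
    · have h1 := congrFun hx (⟨n, by omega⟩, ⟨⟨k, by omega⟩, g⟩)
      have h2 : (PV 𝕜 t ht0 ht1 N (x : V2.{u} 𝕜)) (pt2 (some n) k g) = 0 := h1
      rw [PV_apply] at h2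
      simp only [wP, srcI, RCLike.ofReal_one, one_mul, min_eq_left hn] at h2
      exact h2
  apply Subtype.ext
  apply V2_ext
  intro o k g
  show (PV 𝕜 t ht0 ht1 N (x : V2.{u} 𝕜)) (pt2 o k g) = 0
  rw [PV_apply]
  rcases o with _ | n
  · simp only [srcI]
    rw [key N le_rfl, mul_zero]
  · simp only [srcI]
    rw [key (min n N) (min_le_right _ _), mul_zero]

theorem finrank_PX (t : ℝ) (ht0 : 0 < t) (ht1 : t ≤ 1) (N : ℕ) :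
    FiniteDimensional 𝕜 (LinearMap.range
      (PX.{u} 𝕜 t ht0 ht1 N : Xt.{u} 𝕜 t →ₗ[𝕜] Xt.{u} 𝕜 t)) := by
  obtain ⟨E, hE⟩ : ∃ E : (LinearMap.range
      (PX.{u} 𝕜 t ht0 ht1 N : Xt.{u} 𝕜 t →ₗ[𝕜] Xt.{u} 𝕜 t)) →ₗ[𝕜]
      ((Fin (N + 1) × Σ k : Fin (N + 2), Gk (k : ℕ)) → 𝕜),
      E = (Eev 𝕜 t N).domRestrict _ := ⟨_, rfl⟩
  refine FiniteDimensional.of_injective E ?_
  rw [injective_iff_map_eq_zero]
  intro a ha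
  obtain ⟨x, hx⟩ := a.2
  rw [hE] at ha
  have h1 : Eev 𝕜 t N (a : Xt.{u} 𝕜 t) = 0 := ha
  have hx' : PX 𝕜 t ht0 ht1 N x = (a : Xt.{u} 𝕜 t) := hx
  rw [← hx'] at h1
  apply Subtype.ext
  rw [← hx', PX_zero 𝕜 t ht0 ht1 N x h1]
  rfl

theorem PX_tendsto (t : ℝ) (ht0 : 0 < t) (ht1 : t ≤ 1) (x : Xt.{u} 𝕜 t) (ε : ℝ) (hε : 0 < ε) :
    ∃ N₀, ∀ N, N₀ ≤ N → ‖PX 𝕜 t ht0 ht1 N x - x‖ < ε := by
  have htp : 0 < t⁻¹ := inv_pos.2 ht0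
  have hx : (x : V2.{u} 𝕜) ∈ closure (Submodule.span 𝕜
      {x | ∃ (k : ℕ) (j : Jk k) (m : ℕ), k ≤ m ∧ x = uV.{u} 𝕜 t k j m} : Set (V2.{u} 𝕜)) := x.2
  obtain ⟨y, hy, hxy⟩ := Metric.mem_closure_iff.1 hx (ε / (t⁻¹ + 1)) (by positivity)
  have hN : ∃ N₀ : ℕ, ∀ N, N₀ ≤ N → PV 𝕜 t ht0 ht1 N y = y := by
    refine Submodule.span_induction (p := fun y _ =>
      ∃ N₀ : ℕ, ∀ N, N₀ ≤ N → PV 𝕜 t ht0 ht1 N y = y) ?_ ?_ ?_ ?_ hy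
    · rintro _ ⟨k, j, m, hkm, rfl⟩
      refine ⟨m, fun N hN => ?_⟩
      rw [PV_uV, if_pos hN]
    · exact ⟨0, fun N _ => map_zero _⟩
    · rintro a b _ _ ⟨N1, h1⟩ ⟨N2, h2⟩
      refine ⟨max N1 N2, fun k hk => ?_⟩
      rw [map_add, h1 k (le_trans (le_max_left _ _) hk), h2 k (le_trans (le_max_right _ _) hk)]
    · rintro c a _ ⟨N1, h1⟩
      refine ⟨N1, fun k hk => ?_⟩
      rw [map_smul, h1 k hk]
  obtain ⟨N₀, hN₀⟩ := hN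
  refine ⟨N₀, fun N hN => ?_⟩
  have h1 : (PV 𝕜 t ht0 ht1 N (x : V2.{u} 𝕜)) - (x : V2.{u} 𝕜) =
      PV 𝕜 t ht0 ht1 N ((x : V2.{u} 𝕜) - y) - ((x : V2.{u} 𝕜) - y) := by
    rw [map_sub, hN₀ N hN]
    abel
  have h2 : ‖(PV 𝕜 t ht0 ht1 N (x : V2.{u} 𝕜)) - (x : V2.{u} 𝕜)‖ ≤
      (t⁻¹ + 1) * ‖(x : V2.{u} 𝕜) - y‖ := by
    rw [h1]
    refine (norm_sub_le _ _).trans ?_
    have := norm_PV_le 𝕜 t ht0 ht1 N ((x : V2.{u} 𝕜) - y)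
    linarith
  have h3 : ‖PX 𝕜 t ht0 ht1 N x - x‖ = ‖(PV 𝕜 t ht0 ht1 N (x : V2.{u} 𝕜)) - (x : V2.{u} 𝕜)‖ := rfl
  rw [h3]
  refine lt_of_le_of_lt h2 ?_
  rw [dist_eq_norm] at hxy
  rwa [lt_div_iff₀ (by positivity), mul_comm] at hxy

/-- **Bounded approximation property** of `Xt`. -/
theorem Xt_BAP (t : ℝ) (ht0 : 0 < t) (ht1 : t ≤ 1) (K : Set (Xt.{u} 𝕜 t)) (hK : IsCompact K)
    (ε : ℝ) (hε : 0 < ε) :
    ∃ S : Xt.{u} 𝕜 t →L[𝕜] Xt.{u} 𝕜 t,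
      FiniteDimensional 𝕜 (LinearMap.range (S : Xt.{u} 𝕜 t →ₗ[𝕜] Xt.{u} 𝕜 t)) ∧
      ‖S‖ ≤ t⁻¹ ∧ ∀ x ∈ K, ‖S x - x‖ ≤ ε := by
  have htp : 0 < t⁻¹ := inv_pos.2 ht0
  obtain ⟨η, hη, hη2⟩ : ∃ η : ℝ, 0 < η ∧ (t⁻¹ + 1) * η + η ≤ ε := by
    refine ⟨ε / (t⁻¹ + 2), by positivity, ?_⟩
    rw [← add_one_mul, add_assoc]
    norm_num
    rw [mul_div_cancel₀]
    positivity
  obtain ⟨s, _, hs, hcov⟩ := hK.finite_cover_balls hη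
  have hch : ∀ x : Xt.{u} 𝕜 t, ∃ N₀, ∀ N, N₀ ≤ N → ‖PX 𝕜 t ht0 ht1 N x - x‖ < η :=
    fun x => PX_tendsto 𝕜 t ht0 ht1 x η hη
  choose F hF using hch
  obtain ⟨N, hN⟩ : ∃ N, ∀ x ∈ s, F x ≤ N := by
    refine ⟨∑ x ∈ hs.toFinset, F x, fun x hx => ?_⟩
    exact Finset.single_le_sum (f := F) (fun _ _ => Nat.zero_le _) (hs.mem_toFinset.2 hx)
  refine ⟨PX 𝕜 t ht0 ht1 N, finrank_PX 𝕜 t ht0 ht1 N, norm_PX_le 𝕜 t ht0 ht1 N, fun x hx => ?_⟩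
  obtain ⟨y, hy, hxy⟩ : ∃ y ∈ s, x ∈ Metric.ball y η := by
    have := hcov hx
    simpa using this
  rw [Metric.mem_ball, dist_eq_norm] at hxy
  have h1 := hF y N (hN y hy)
  have h2 : PX 𝕜 t ht0 ht1 N x - x = (PX 𝕜 t ht0 ht1 N (x - y) - (x - y)) +
      (PX 𝕜 t ht0 ht1 N y - y) := by
    rw [map_sub]; abel
  rw [h2]
  have h3 : ‖PX 𝕜 t ht0 ht1 N (x - y)‖ ≤ t⁻¹ * η := by
    refine ((PX 𝕜 t ht0 ht1 N).le_opNorm _).trans ?_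
    exact mul_le_mul (norm_PX_le 𝕜 t ht0 ht1 N) hxy.le (norm_nonneg _) htp.le
  calc _ ≤ (t⁻¹ * η + η) + η :=
        (norm_add_le _ _).trans (add_le_add ((norm_sub_le _ _).trans (add_le_add h3 hxy.le)) h1.le)
    _ = (t⁻¹ + 1) * η + η := by ring
    _ ≤ ε := hη2

end Pool.Agent.Helper38.Davie
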