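import Mathlib

/-!
Banach operator ideals, the `lam`-bounded approximation property for an operator ideal, condition
`(P_lam)`, and the ideal of approximable operators.
-/

set_option autoImplicit false

namespace Pool.Agent.Helper38.OpIdeal

open Filter Topology

universe u

/-- Banach spaces over `𝕜` (in `Type u`). -/
structure Ban (𝕜 : Type) [RCLike 𝕜] : Type (u + 1) where
  /-- the underlying type -/
  carrier : Type u
  [normed : NormedAddCommGroup carrier]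
  [space : NormedSpace 𝕜 carrier]
  [complete : CompleteSpace carrier]

attribute [instance] Ban.normed Ban.space Ban.complete

section ops

variable {𝕜 : Type} [RCLike 𝕜]

/-- bounded linear operators from `X` to `Y` -/
def Op (X Y : Ban.{u} 𝕜) : Type u := X.carrier →L[𝕜] Y.carrier

noncomputable instance instOpGroup (X Y : Ban.{u} 𝕜) : NormedAddCommGroup (Op X Y) :=
  (ContinuousLinearMap.toNormedAddCommGroup : NormedAddCommGroup (X.carrier →L[𝕜] Y.carrier))

noncomputable instance instOpSpace (X Y : Ban.{u} 𝕜) : NormedSpace 𝕜 (Op X Y) :=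
  (ContinuousLinearMap.toNormedSpace : NormedSpace 𝕜 (X.carrier →L[𝕜] Y.carrier))

/-- value of an operator at a vector -/
def Op.app {X Y : Ban.{u} 𝕜} (T : Op X Y) (x : X.carrier) : Y.carrier :=
  (show X.carrier →L[𝕜] Y.carrier from T) x

/-- composition -/
def Op.comp {X Y Z : Ban.{u} 𝕜} (R : Op Y Z) (T : Op X Y) : Op X Z :=
  ContinuousLinearMap.comp (show Y.carrier →L[𝕜] Z.carrier from R)
    (show X.carrier →L[𝕜] Y.carrier from T)

/-- the rank one operator `x ↦ φ(x) y` -/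
def Op.rankOne {X Y : Ban.{u} 𝕜} (φ : X.carrier →L[𝕜] 𝕜) (y : Y.carrier) : Op X Y :=
  φ.smulRight y

/-- finite rank operators: all values lie in one finite-dimensional subspace -/
def FinRank {X Y : Ban.{u} 𝕜} (T : Op X Y) : Prop :=
  ∃ F : Submodule 𝕜 Y.carrier, FiniteDimensional 𝕜 F ∧ ∀ x, T.app x ∈ F

/-- The data of an operator ideal: the operators belonging to it and a function on operators
(only its values on the operators of the ideal matter). -/
structure OpClass (𝕜 : Type) [RCLike 𝕜] : Type (u + 1) where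
  /-- membership in `𝒜(X, Y)` -/
  Mem : ∀ {X Y : Ban.{u} 𝕜}, Op X Y → Prop
  /-- the ideal norm -/
  nrm : ∀ {X Y : Ban.{u} 𝕜}, Op X Y → ℝ

/-- Each component is a linear subspace containing the finite rank operators. -/
def OpClass.Linear (A : OpClass.{u} 𝕜) : Prop :=
  ∀ X Y : Ban.{u} 𝕜, (∀ T : Op X Y, FinRank T → A.Mem T) ∧
    (∀ S T : Op X Y, A.Mem S → A.Mem T → A.Mem (S + T)) ∧
    ∀ (c : 𝕜) (T : Op X Y), A.Mem T → A.Mem (c • T)

/-- `nrm` is a norm on each component. -/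
def OpClass.Normed (A : OpClass.{u} 𝕜) : Prop :=
  ∀ X Y : Ban.{u} 𝕜, (∀ T : Op X Y, A.Mem T → 0 ≤ A.nrm T ∧ (A.nrm T = 0 → T = 0)) ∧
    (∀ S T : Op X Y, A.Mem S → A.Mem T → A.nrm (S + T) ≤ A.nrm S + A.nrm T) ∧
    ∀ (c : 𝕜) (T : Op X Y), A.Mem T → A.nrm (c • T) = ‖c‖ * A.nrm T

/-- Each component is complete for `nrm`. -/
def OpClass.Complete (A : OpClass.{u} 𝕜) : Prop :=
  ∀ (X Y : Ban.{u} 𝕜) (T : ℕ → Op X Y), (∀ n, A.Mem (T n)) →
    (∀ ε : ℝ, 0 < ε → ∃ N, ∀ m, N ≤ m → ∀ n, N ≤ n → A.nrm (T m - T n) < ε) →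
    ∃ L : Op X Y, A.Mem L ∧ ∀ ε : ℝ, 0 < ε → ∃ N, ∀ n, N ≤ n → A.nrm (T n - L) < ε

/-- The norm of rank one operators. -/
def OpClass.RankOne (A : OpClass.{u} 𝕜) : Prop :=
  ∀ (X Y : Ban.{u} 𝕜) (φ : X.carrier →L[𝕜] 𝕜) (y : Y.carrier),
    A.nrm (Op.rankOne (Y := Y) φ y) = ‖φ‖ * ‖y‖

/-- The ideal property. -/
def OpClass.Ideal (A : OpClass.{u} 𝕜) : Prop :=
  ∀ (W X Y Z : Ban.{u} 𝕜) (S : Op W X) (T : Op X Y) (R : Op Y Z), A.Mem T →
    A.Mem (R.comp (T.comp S)) ∧ A.nrm (R.comp (T.comp S)) ≤ ‖R‖ * A.nrm T * ‖S‖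

/-- Banach operator ideals. -/
def OpClass.IsBanachIdeal (A : OpClass.{u} 𝕜) : Prop :=
  A.Linear ∧ A.Normed ∧ A.Complete ∧ A.RankOne ∧ A.Ideal

/-- The `limsup` of a net of real numbers is at most `c` (in the extended reals). -/
def LimsupLE {ι : Type u} [Preorder ι] (f : ι → ℝ) (c : ℝ) : Prop :=
  limsup (fun i => ((f i : ℝ) : EReal)) atTop ≤ (c : EReal)

/-- The net `S` converges to the identity uniformly on each compact set. -/
def TendsToId {X : Ban.{u} 𝕜} {ι : Type u} [Preorder ι] (S : ι → Op X X) : Prop :=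
  ∀ K : Set X.carrier, IsCompact K → TendstoUniformlyOn (fun i x => (S i).app x) id atTop K

/-- The net `U` converges to `T` pointwise. -/
def TendsPointwise {X Y : Ban.{u} 𝕜} {ι : Type u} [Preorder ι] (U : ι → Op X Y)
    (T : Op X Y) : Prop :=
  ∀ x : X.carrier, Tendsto (fun i => ‖(U i).app x - T.app x‖) atTop (𝓝 0)

/-- The `lam`-bounded approximation property of `X` for `A`; nets are indexed by directed sets. -/
def BAPFor (A : OpClass.{u} 𝕜) (lam : ℝ) (X : Ban.{u} 𝕜) : Prop :=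
  ∀ (Y : Ban.{u} 𝕜) (T : Op X Y), A.Mem T →
    ∃ (ι : Type u) (_ : Preorder ι) (_ : IsDirected ι (· ≤ ·)) (_ : Nonempty ι)
      (S : ι → Op X X), (∀ i, FinRank (S i)) ∧ TendsToId S ∧
      LimsupLE (fun i => A.nrm (T.comp (S i))) (lam * A.nrm T)

/-- Condition `(P_lam)` of `X` for `A`. -/
def CondP (A : OpClass.{u} 𝕜) (lam : ℝ) (X : Ban.{u} 𝕜) : Prop :=
  ∀ (Y : Ban.{u} 𝕜) (T : Op X Y), A.Mem T →
    ∃ (ι : Type u) (_ : Preorder ι) (_ : IsDirected ι (· ≤ ·)) (_ : Nonempty ι)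
      (U : ι → Op X Y), (∀ i, FinRank (U i)) ∧ TendsPointwise U T ∧
      LimsupLE (fun i => A.nrm (U i)) (lam * A.nrm T)

/-- The usual bounded approximation property. -/
def HasBAP (X : Ban.{u} 𝕜) : Prop :=
  ∃ μ : ℝ, ∀ K : Set X.carrier, IsCompact K → ∀ ε : ℝ, 0 < ε →
    ∃ S : Op X X, FinRank S ∧ ‖S‖ ≤ μ ∧ ∀ x ∈ K, ‖S.app x - x‖ ≤ ε

end ops

/-- The approximable operators (operator norm limits of finite rank operators), with the operator
norm. -/
noncomputable def approx (𝕜 : Type) [RCLike 𝕜] : OpClass.{u} 𝕜 where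
  Mem := fun {X Y} T => ∀ ε : ℝ, 0 < ε → ∃ F : Op X Y, FinRank F ∧ ‖T - F‖ < ε
  nrm := fun T => ‖T‖

section lemmas

variable {𝕜 : Type} [RCLike 𝕜]

theorem norm_app_le {X Y : Ban.{u} 𝕜} (T : Op X Y) (x : X.carrier) : ‖T.app x‖ ≤ ‖T‖ * ‖x‖ :=
  ContinuousLinearMap.le_opNorm (show X.carrier →L[𝕜] Y.carrier from T) x

theorem norm_comp_le {X Y Z : Ban.{u} 𝕜} (R : Op Y Z) (T : Op X Y) : ‖R.comp T‖ ≤ ‖R‖ * ‖T‖ :=
  ContinuousLinearMap.opNorm_comp_le (show Y.carrier →L[𝕜] Z.carrier from R)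
    (show X.carrier →L[𝕜] Y.carrier from T)

theorem finRank_of_range {X Y : Ban.{u} 𝕜} (T : X.carrier →L[𝕜] Y.carrier)
    (h : FiniteDimensional 𝕜 (LinearMap.range (T : X.carrier →ₗ[𝕜] Y.carrier))) :
    FinRank (X := X) (Y := Y) T :=
  ⟨_, h, fun x => ⟨x, rfl⟩⟩

theorem FinRank.range {X Y : Ban.{u} 𝕜} {T : Op X Y} (h : FinRank T) :
    FiniteDimensional 𝕜 (LinearMap.range
      ((show X.carrier →L[𝕜] Y.carrier from T) : X.carrier →ₗ[𝕜] Y.carrier)) := by
  obtain ⟨F, hF, hx⟩ := h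
  refine Submodule.finiteDimensional_of_le (S₂ := F) ?_
  rintro _ ⟨x, rfl⟩
  exact hx x

theorem finRank_add {X Y : Ban.{u} 𝕜} (S T : Op X Y) (hS : FinRank S)
    (hT : FinRank T) : FinRank (S + T) := by
  obtain ⟨F, hF, hx⟩ := hS
  obtain ⟨G, hG, hy⟩ := hT
  exact ⟨F ⊔ G, inferInstance, fun x => Submodule.add_mem_sup (hx x) (hy x)⟩

theorem finRank_smul {X Y : Ban.{u} 𝕜} (c : 𝕜) (T : Op X Y)
    (hT : FinRank T) : FinRank (c • T) := by
  obtain ⟨F, hF, hx⟩ := hT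
  exact ⟨F, hF, fun x => Submodule.smul_mem _ c (hx x)⟩

theorem finRank_comp {W X Y Z : Ban.{u} 𝕜}
    (S : Op W X) (T : Op X Y) (R : Op Y Z) (hT : FinRank T) :
    FinRank (R.comp (T.comp S)) := by
  obtain ⟨F, hF, hx⟩ := hT
  refine ⟨F.map ((show Y.carrier →L[𝕜] Z.carrier from R) : Y.carrier →ₗ[𝕜] Z.carrier),
    inferInstance, fun x => ?_⟩
  exact ⟨T.app (S.app x), hx _, rfl⟩

theorem comp_sub_comp {W X Y Z : Ban.{u} 𝕜}
    (S : Op W X) (T F : Op X Y) (R : Op Y Z) :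
    R.comp (T.comp S) - R.comp (F.comp S) = R.comp ((T - F).comp S) := by
  apply ContinuousLinearMap.ext
  intro x
  show R.app (T.app (S.app x)) - R.app (F.app (S.app x)) = R.app ((T - F).app (S.app x))
  have h1 : (T - F).app (S.app x) = T.app (S.app x) - F.app (S.app x) := rfl
  rw [h1]
  exact (map_sub (show Y.carrier →L[𝕜] Z.carrier from R) _ _).symm

theorem approx_isBanachIdeal (𝕜 : Type) [RCLike 𝕜] : (approx.{u} 𝕜).IsBanachIdeal := by
  refine ⟨?_, ?_, ?_, ?_, ?_⟩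
  · intro X Y
    refine ⟨fun T hT ε hε => ⟨T, hT, by rw [sub_self, norm_zero]; exact hε⟩, ?_, ?_⟩
    · intro S T hS hT ε hε
      obtain ⟨F, hF, hF2⟩ := hS (ε / 2) (by positivity)
      obtain ⟨G, hG, hG2⟩ := hT (ε / 2) (by positivity)
      refine ⟨F + G, finRank_add F G hF hG, ?_⟩
      have h1 : S + T - (F + G) = (S - F) + (T - G) := by abel
      rw [h1]
      have := norm_add_le (S - F) (T - G)
      linarith
    · intro c T hT ε hε
      obtain ⟨F, hF, hF2⟩ := hT (ε / (‖c‖ + 1)) (by positivity)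
      refine ⟨c • F, finRank_smul c F hF, ?_⟩
      rw [← smul_sub, norm_smul]
      have h1 : (‖c‖ + 1) * ‖T - F‖ < ε := by
        rw [lt_div_iff₀ (by positivity)] at hF2
        linarith
      nlinarith [norm_nonneg (T - F)]
  · intro X Y
    exact ⟨fun T _ => ⟨norm_nonneg T, fun h => norm_eq_zero.1 h⟩,
      fun S T _ _ => norm_add_le S T, fun c T _ => norm_smul c T⟩
  · intro X Y T hT hC
    have hcs : CompleteSpace (Op X Y) :=
      (inferInstance : CompleteSpace (X.carrier →L[𝕜] Y.carrier))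
    have hcau : CauchySeq T := by
      rw [Metric.cauchySeq_iff]
      intro ε hε
      obtain ⟨N, hN⟩ := hC ε hε
      refine ⟨N, fun m hm n hn => ?_⟩
      rw [dist_eq_norm]
      exact hN m hm n hn
    obtain ⟨L, hL⟩ := cauchySeq_tendsto_of_complete hcau
    have hL' : ∀ ε : ℝ, 0 < ε → ∃ N, ∀ n, N ≤ n → ‖T n - L‖ < ε := by
      intro ε hε
      obtain ⟨N, hN⟩ := Metric.tendsto_atTop.1 hL ε hε
      refine ⟨N, fun n hn => ?_⟩
      rw [← dist_eq_norm]
      exact hN n hn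
    refine ⟨L, ?_, hL'⟩
    intro ε hε
    obtain ⟨N, hN⟩ := hL' (ε / 2) (by positivity)
    obtain ⟨F, hF, hF2⟩ := hT N (ε / 2) (by positivity)
    refine ⟨F, hF, ?_⟩
    have h1 : L - F = -(T N - L) + (T N - F) := by abel
    have h2 := hN N le_rfl
    have h3 := norm_add_le (-(T N - L)) (T N - F)
    rw [norm_neg] at h3
    rw [h1]
    linarith
  · intro X Y φ y
    exact ContinuousLinearMap.norm_smulRight_apply φ y
  · intro W X Y Z S T R hT
    refine ⟨?_, ?_⟩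
    · intro ε hε
      obtain ⟨F, hF, hF2⟩ := hT (ε / (‖R‖ * ‖S‖ + 1)) (by positivity)
      refine ⟨R.comp (F.comp S), finRank_comp S F R hF, ?_⟩
      rw [comp_sub_comp]
      have h1 : ‖R.comp ((T - F).comp S)‖ ≤ ‖R‖ * (‖T - F‖ * ‖S‖) :=
        (norm_comp_le _ _).trans
          (mul_le_mul_of_nonneg_left (norm_comp_le _ _) (norm_nonneg R))
      have h2 : (‖R‖ * ‖S‖ + 1) * ‖T - F‖ < ε := by
        rw [lt_div_iff₀ (by positivity)] at hF2
        linarith
      nlinarith [norm_nonneg (T - F)]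
    · show ‖R.comp (T.comp S)‖ ≤ ‖R‖ * ‖T‖ * ‖S‖
      rw [mul_assoc]
      exact (norm_comp_le _ _).trans
        (mul_le_mul_of_nonneg_left (norm_comp_le _ _) (norm_nonneg R))

theorem ulift_dir : IsDirected (ULift.{u} ℕ) (· ≤ ·) :=
  ⟨fun a b => ⟨ULift.up (max a.down b.down), le_max_left _ _, le_max_right _ _⟩⟩

theorem ulift_tendsto : Tendsto (fun i : ULift.{u} ℕ => i.down) atTop atTop := by
  rw [tendsto_atTop]
  intro b
  have := ulift_dir.{u}
  have : Nonempty (ULift.{u} ℕ) := ⟨ULift.up 0⟩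
  exact eventually_atTop.2 ⟨ULift.up b, fun a ha => ha⟩

/-- the ideal norm dominates the operator norm -/
theorem norm_app_le_nrm (A : OpClass.{u} 𝕜) (hA : A.IsBanachIdeal)
    {X Y : Ban.{u} 𝕜} (T : Op X Y) (hT : A.Mem T) (x : X.carrier) :
    ‖T.app x‖ ≤ A.nrm T * ‖x‖ := by
  obtain ⟨_, hN, _, hR, hI⟩ := hA
  by_cases hx : x = 0
  · subst hx
    have : T.app 0 = 0 := map_zero (show X.carrier →L[𝕜] Y.carrier from T)
    rw [this]
    simp
  · obtain ⟨φ, hφ, _⟩ := exists_dual_vector 𝕜 x (norm_ne_zero_iff.2 hx)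
    obtain ⟨I, hI0⟩ : ∃ I : Op Y Y, I = ContinuousLinearMap.id 𝕜 Y.carrier := ⟨_, rfl⟩
    have h1 : I.comp (T.comp (Op.rankOne (X := X) (Y := X) φ x)) =
        Op.rankOne (X := X) (Y := Y) φ (T.app x) := by
      apply ContinuousLinearMap.ext
      intro z
      rw [hI0]
      show T.app (φ z • x) = φ z • T.app x
      exact map_smul (show X.carrier →L[𝕜] Y.carrier from T) _ _
    have h2 := (hI X X Y Y (Op.rankOne φ x) T I hT).2
    rw [h1, hR, hφ, one_mul] at h2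
    have h6 : ‖Op.rankOne (X := X) (Y := X) φ x‖ = ‖x‖ := by
      have := ContinuousLinearMap.norm_smulRight_apply φ x
      rw [hφ, one_mul] at this
      exact this
    rw [h6] at h2
    refine h2.trans ?_
    have h3 : ‖I‖ ≤ 1 := by rw [hI0]; exact ContinuousLinearMap.norm_id_le
    have h4 := ((hN X Y).1 T hT).1
    have h5 : 0 ≤ A.nrm T * ‖x‖ := mul_nonneg h4 (norm_nonneg _)
    calc ‖I‖ * A.nrm T * ‖x‖ = ‖I‖ * (A.nrm T * ‖x‖) := by ring
      _ ≤ 1 * (A.nrm T * ‖x‖) := mul_le_mul_of_nonneg_right h3 h5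
      _ = _ := one_mul _

/-- Finite rank operators are dense in every component for the ideal norm. -/
def FinRankDense (A : OpClass.{u} 𝕜) : Prop :=
  ∀ (X Y : Ban.{u} 𝕜) (T : Op X Y), A.Mem T → ∀ ε : ℝ, 0 < ε →
    ∃ F : Op X Y, FinRank F ∧ A.nrm (F - T) < ε

theorem approx_dense (𝕜 : Type) [RCLike 𝕜] : FinRankDense (approx.{u} 𝕜) := by
  intro X Y T hT ε hε
  obtain ⟨F, hF, hF2⟩ := hT ε hε
  refine ⟨F, hF, ?_⟩
  show ‖F - T‖ < ε
  rw [norm_sub_rev]
  exact hF2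

/-- If finite rank operators are dense in `𝒜` for the ideal norm, then every Banach space
satisfies `(P_lam)` for `𝒜`, for all `lam ≥ 1`. -/
theorem condP_of_dense (A : OpClass.{u} 𝕜) (hA : A.IsBanachIdeal) (hd : FinRankDense A)
    (lam : ℝ) (hlam : 1 ≤ lam) (X : Ban.{u} 𝕜) : CondP A lam X := by
  intro Y T hT
  have hch : ∀ n : ℕ, ∃ F : Op X Y, FinRank F ∧ A.nrm (F - T) < 1 / ((n : ℝ) + 1) :=
    fun n => hd X Y T hT _ (by positivity)
  choose U hU hU2 using hch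
  have hlim0 : Tendsto (fun n : ℕ => 1 / ((n : ℝ) + 1)) atTop (𝓝 0) :=
    tendsto_one_div_add_atTop_nhds_zero_nat
  have hmem : ∀ n, A.Mem (U n - T) := by
    intro n
    have h1 : U n - T = U n + (-1 : 𝕜) • T := by rw [neg_one_smul, sub_eq_add_neg]
    rw [h1]
    exact (hA.1 X Y).2.1 _ _ ((hA.1 X Y).1 _ (hU n)) ((hA.1 X Y).2.2 _ _ hT)
  have hnn := ((hA.2.1 X Y).1 T hT).1
  have hdir := ulift_dir.{u}
  have hne : Nonempty (ULift.{u} ℕ) := ⟨ULift.up 0⟩
  refine ⟨ULift.{u} ℕ, inferInstance, hdir, hne, fun i => U i.down, fun i => hU i.down, ?_, ?_⟩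
  · intro x
    have h1 : Tendsto (fun n => ‖(U n).app x - T.app x‖) atTop (𝓝 0) := by
      have h2 : Tendsto (fun n : ℕ => 1 / ((n : ℝ) + 1) * ‖x‖) atTop (𝓝 (0 * ‖x‖)) :=
        hlim0.mul_const _
      rw [zero_mul] at h2
      refine squeeze_zero (fun n => norm_nonneg _) (fun n => ?_) h2
      have h4 := norm_app_le_nrm A hA (U n - T) (hmem n) x
      have h5 : (U n - T).app x = (U n).app x - T.app x := rfl
      rw [h5] at h4
      exact h4.trans (mul_le_mul_of_nonneg_right (hU2 n).le (norm_nonneg _))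
    exact h1.comp ulift_tendsto
  · have h4 : ∀ n, A.nrm (U n) ≤ A.nrm T + 1 / ((n : ℝ) + 1) := by
      intro n
      have h5 : U n = T + (U n - T) := by abel
      have h6 := (hA.2.1 X Y).2.1 T (U n - T) hT (hmem n)
      rw [← h5] at h6
      linarith [hU2 n]
    have h7 : Tendsto (fun i : ULift.{u} ℕ => ((A.nrm T + 1 / ((i.down : ℝ) + 1) : ℝ) : EReal))
        atTop (𝓝 ((A.nrm T + 0 : ℝ) : EReal)) :=
      ((continuous_coe_real_ereal.tendsto _).comp (hlim0.const_add _)).comp ulift_tendsto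
    show limsup (fun i : ULift.{u} ℕ => ((A.nrm (U i.down) : ℝ) : EReal)) atTop ≤ _
    calc limsup (fun i : ULift.{u} ℕ => ((A.nrm (U i.down) : ℝ) : EReal)) atTop
        ≤ limsup (fun i : ULift.{u} ℕ => ((A.nrm T + 1 / ((i.down : ℝ) + 1) : ℝ) : EReal))
          atTop := by
          refine limsup_le_limsup (Eventually.of_forall (fun i => ?_))
          exact EReal.coe_le_coe_iff.2 (h4 i.down)
      _ = ((A.nrm T + 0 : ℝ) : EReal) := h7.limsup_eq
      _ ≤ ((lam * A.nrm T : ℝ) : EReal) := by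
        rw [EReal.coe_le_coe_iff, add_zero]
        nlinarith

end lemmas

end Pool.Agent.Helper38.OpIdeal
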